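import Pool.Agent.H5.M3F.Wgt
import Pool.Agent.H71.GEN.Poly
import Pool.Agent.H95.GN.Rle

/-!
# From the extended family back to the family

Chains of two-sided labels of `exF F (c r) sg` (the family with the additional coordinate
`2 ^ (-sg) x_(c r)`) are chains of `F`: `chn_lt` for the coordinates before `c r`, `chn_top` for
`c r`. Relations between the coordinates `c l`, `l ≤ r`, are relations in the extended family.
-/

set_option autoImplicit false

namespace Pool.RLX

open Finset Real MvPolynomial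
open Pool.Agent.H49.Ent Pool.Agent.H32.Dense Pool.STK Pool.KA Pool.KSAT Pool.K2S Pool.PB Pool.S6C
open Pool.GEN Pool.M3F Pool.KS3 Pool.STAT Pool.STAT.CLO

variable {m J : ℕ}

/-! ### The last variable is zero -/

/-- The substitution: the last variable is zero. -/
noncomputable def ivx (m : ℕ) (o : Option (Fin (m + 1))) : MvPolynomial (Option (Fin m)) ℝ :=
  o.elim (X none) (fun i => sn (fun j : Fin m => X (some j)) 0 i)

theorem ivx_cs (i : Fin m) : ivx m (some (Fin.castSucc i)) = X (some i) :=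
  sn_cs (fun j : Fin m => (X (some j) : MvPolynomial (Option (Fin m)) ℝ)) 0 i

theorem ivx_last (m : ℕ) : ivx m (some (Fin.last m)) = 0 :=
  sn_last (fun j : Fin m => (X (some j) : MvPolynomial (Option (Fin m)) ℝ)) 0

/-- The point with the last coordinate zero. -/
noncomputable def up0 (b : Option (Fin m) → ℝ) (o : Option (Fin (m + 1))) : ℝ :=
  o.elim (b none) (fun i => sn (fun j => b (some j)) 0 i)

theorem up0_cs (b : Option (Fin m) → ℝ) (i : Fin m) : up0 b (some (Fin.castSucc i)) = b (some i) :=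
  sn_cs (fun j => b (some j)) 0 i

theorem up0_last (b : Option (Fin m) → ℝ) : up0 b (some (Fin.last m)) = 0 :=
  sn_last (fun j => b (some j)) 0

theorem eval_ivx (b : Option (Fin m) → ℝ) (o : Option (Fin (m + 1))) :
    eval b (ivx m o) = up0 b o := by
  rcases o with _ | i
  · exact eval_X _
  · refine Fin.lastCases ?_ (fun i => ?_) i
    · show eval b (sn (fun j : Fin m => X (some j)) 0 (Fin.last m)) = _
      rw [sn_last, map_zero, up0_last]
    · show eval b (sn (fun j : Fin m => X (some j)) 0 (Fin.castSucc i)) = _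
      rw [sn_cs, eval_X, up0_cs]

/-- The polynomial with the last variable zero. -/
noncomputable def cv (Q : MvPolynomial (Option (Fin (m + 1))) ℝ) :
    MvPolynomial (Option (Fin m)) ℝ := aeval (ivx m) Q

theorem eval_cv (b : Option (Fin m) → ℝ) (Q : MvPolynomial (Option (Fin (m + 1))) ℝ) :
    eval b (cv Q) = eval (up0 b) Q := by
  unfold cv
  rw [eval_aevalσ]
  congr 1
  congr 1
  funext o
  exact eval_ivx b o

theorem cv_deg {Q : MvPolynomial (Option (Fin (m + 1))) ℝ} {K : ℕ} (h : Q.totalDegree ≤ K) :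
    (cv Q).totalDegree ≤ K := by
  have h1 := totalDegree_aevalσ (g := ivx m) (d := 1) (fun o => by
    rcases o with _ | i
    · exact (totalDegree_X _).le
    · refine Fin.lastCases ?_ (fun i => ?_) i
      · show (sn (fun j : Fin m => (X (some j) : MvPolynomial (Option (Fin m)) ℝ)) 0
          (Fin.last m)).totalDegree ≤ 1
        rw [sn_last, totalDegree_zero]
        exact Nat.zero_le _
      · show (sn (fun j : Fin m => (X (some j) : MvPolynomial (Option (Fin m)) ℝ)) 0
          (Fin.castSucc i)).totalDegree ≤ 1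
        rw [sn_cs]
        exact (totalDegree_X _).le) h
  rw [one_mul] at h1
  exact h1

theorem pd_cv (i : Fin m) (Q : MvPolynomial (Option (Fin (m + 1))) ℝ) :
    pderiv (some i) (cv Q) = cv (pderiv (some (Fin.castSucc i)) Q) := by
  classical
  unfold cv
  rw [pd_aeval, Finset.sum_eq_single (some (Fin.castSucc i))]
  · have h1 : ivx m (some (Fin.castSucc i)) = X (some i) := ivx_cs i
    rw [h1, pderiv_X_self, mul_one]
  · rintro (_ | j) _ hj
    · have h1 : ivx m none = X none := rfl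
      rw [h1, pderiv_X_of_ne (by simp), mul_zero]
    · induction j using Fin.lastCases with
      | last =>
        have h1 : ivx m (some (Fin.last m)) = 0 := ivx_last m
        rw [h1, map_zero, mul_zero]
      | cast j =>
        have h1 : ivx m (some (Fin.castSucc j)) = X (some j) := ivx_cs j
        rw [h1, pderiv_X_of_ne, mul_zero]
        intro h2
        exact hj (by rw [Option.some_inj.1 h2])
  · exact fun h => absurd (Finset.mem_univ _) h

section chain

variable {F : Fam m J} {c : ℕ → Fin m} {r sg : ℕ}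

theorem up0_cx {l : ℕ} {b : Option (Fin m) → ℝ} (hl : l < r) :
    up0 b (some (cx' c r l)) = b (some (c l)) := by
  rw [cx'_lt hl, up0_cs]

theorem cv_dep {l : ℕ} {Q : MvPolynomial (Option (Fin (m + 1))) ℝ} (h : DepC (cx' c r) l Q) :
    DepC c l (cv Q) := by
  intro b b' h0 hb
  rw [eval_cv, eval_cv]
  refine h _ _ h0 fun l' hl' => ?_
  by_cases h1 : l' = r
  · rw [h1, cx'_r, up0_last, up0_last]
  · have h2 : cx' c r l' = Fin.castSucc (c l') := if_neg h1
    rw [h2, up0_cs, up0_cs]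
    exact hb l' hl'

theorem eval_bt {l : ℕ} {Q : MvPolynomial (Option (Fin (m + 1))) ℝ} (h : DepC (cx' c r) l Q)
    (hl : l ≤ r) (ω : F.Ω) :
    eval (bt (exF F (c r) sg) ω) Q = eval (up0 (bt F ω)) Q := by
  refine h _ _ rfl fun l' hl' => ?_
  rw [up0_cx (by omega), cx'_lt (by omega)]
  show (exF F (c r) sg).x ω (Fin.castSucc (c l')) = F.x ω (c l')
  rw [exF_x, sn_cs]

theorem nbx_dn {G : ℕ → MvPolynomial (Option (Fin (m + 1))) ℝ}
    {G₂ : ℕ → MvPolynomial (Option (Fin m)) ℝ} {g g₂ : ℕ → ℕ} {a l : ℕ} {t : ℝ}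
    {b : Option (Fin m) → ℝ} (hl : l ≤ r) (hG : ∀ l' < l, G₂ l' = cv (G l'))
    (hg : ∀ l' < l, g₂ l' = g l') (h : NBx c G₂ g₂ a t l b) :
    NBx (cx' c r) G g a t l (up0 b) := by
  refine ⟨h.1, fun l' hl' => ?_⟩
  have h1 := h.2 l' hl'
  rw [hG l' hl', hg l' hl', eval_cv] at h1
  rw [up0_cx (by omega)]
  exact h1

/-- **The chains before the last coordinate.** -/
theorem chn_lt {K : ℕ → ℕ} {i a w e : ℕ} {g : ℕ → ℕ} {A : F.Ω → Prop} (hi : i ≤ r)
    (h : ChN (exF F (c r) sg) (cx' c r) i K a w e g A) : ChN F c i K a w e g A := by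
  obtain ⟨G, H, h⟩ := h
  refine ⟨fun y l => cv (G (eP F (c r) sg y) l), fun s l => cv (H (eL F (c r) sg s) l),
    fun y l => cv_deg (h.degG _ l), fun s l => cv_deg (h.degH _ l), fun y l => cv_dep (h.depG _ l),
    fun s l => cv_dep (h.depH _ l), fun ω hω l hl => ?_, fun ω hω l hl b hb => ?_,
    fun ω hω l hl b hb k hk => ?_⟩
  · have h1 := h.pos ω hω l hl
    rw [exF_ptr, eval_bt (h.depG _ l) (by omega), exF_x, cx'_lt (by omega), sn_cs] at h1
    rw [eval_cv]
    exact h1
  · have h1 := h.agr ω hω l hl (up0 b) (by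
      rw [exF_ptr]
      exact nbx_dn (by omega) (fun _ _ => rfl) (fun _ _ => rfl) hb)
    rw [exF_ptr, exF_slam] at h1
    rw [eval_cv, eval_cv]
    exact h1
  · have h1 := h.lip ω hω l hl (up0 b) (by
      rw [exF_ptr]
      exact nbx_dn (by omega) (fun _ _ => rfl) (fun _ _ => rfl) hb) k hk
    rw [exF_ptr, cx'_lt (by omega)] at h1
    rw [pd_cv, eval_cv]
    exact h1

/-- **The chain of the last coordinate.** -/
theorem chn_top {K : ℕ → ℕ} {a w e e₂ : ℕ} {g g₂ : ℕ → ℕ} {A : F.Ω → Prop}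
    (h : ChN (exF F (c r) sg) (cx' c r) (r + 1) K a w e g A) (hg : ∀ l < r, g₂ l = g l)
    (hr : g₂ r + sg = g r) (he : e + sg + (range (r + 1)).sup g ≤ e₂) :
    ChN F c (r + 1) K a w e₂ g₂ A := by
  obtain ⟨G, H, h⟩ := h
  have p2 : (0 : ℝ) < 2 ^ sg := by positivity
  have hw2 : ∀ x : ℝ, |x| ≤ 1 / 2 ^ g r → |2 ^ sg * x| ≤ 1 / 2 ^ g₂ r := by
    intro x hx
    rw [abs_mul, abs_of_pos p2]
    calc 2 ^ sg * |x| ≤ 2 ^ sg * (1 / 2 ^ g r) := mul_le_mul_of_nonneg_left hx p2.le
      _ = 1 / 2 ^ g₂ r := by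
        rw [← hr, pow_add]
        field_simp
  have hnl : ∀ l, ∀ k, k < l → l ≤ r → nlp g k l ≤ (range (r + 1)).sup g := by
    intro l k _ hl
    unfold nlp
    refine (Nat.sub_le _ _).trans (Finset.sup_mono fun x hx => ?_)
    have := (Finset.mem_Icc.1 hx).2
    exact mem_range.2 (by omega)
  refine ⟨fun y l => if l = r then C (2 ^ sg) * cv (G (eP F (c r) sg y) r) else
      cv (G (eP F (c r) sg y) l),
    fun s l => if l = r then C (2 ^ sg) * cv (H (eL F (c r) sg s) r) else
      cv (H (eL F (c r) sg s) l), fun y l => ?_, fun s l => ?_, fun y l => ?_, fun s l => ?_,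
    fun ω hω l hl => ?_, fun ω hω l hl b hb => ?_, fun ω hω l hl b hb k hk => ?_⟩
  · split_ifs with h1
    · refine (totalDegree_mul _ _).trans ?_
      rw [totalDegree_C, zero_add, h1]
      exact cv_deg (h.degG _ r)
    · exact cv_deg (h.degG _ l)
  · split_ifs with h1
    · refine (totalDegree_mul _ _).trans ?_
      rw [totalDegree_C, zero_add, h1]
      exact cv_deg (h.degH _ r)
    · exact cv_deg (h.degH _ l)
  · split_ifs with h1
    · intro b b' h0 hb
      rw [map_mul, map_mul, eval_C, eval_C, cv_dep (h.depG _ r) b b' h0 (by rw [← h1]; exact hb)]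
    · exact cv_dep (h.depG _ l)
  · split_ifs with h1
    · intro b b' h0 hb
      rw [map_mul, map_mul, eval_C, eval_C, cv_dep (h.depH _ r) b b' h0 (by rw [← h1]; exact hb)]
    · exact cv_dep (h.depH _ l)
  · have h1 := h.pos ω hω l hl
    rw [exF_ptr, eval_bt (h.depG _ l) (by omega), exF_x] at h1
    by_cases h2 : l = r
    · rw [h2, cx'_r, sn_last] at h1
      rw [if_pos h2, h2, map_mul, eval_C, eval_cv]
      have h3 := hw2 _ h1
      have h4 : F.x ω (c r) - 2 ^ sg * eval (up0 (bt F ω)) (G (eP F (c r) sg (ptr F J ω)) r) =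
          2 ^ sg * (F.x ω (c r) / 2 ^ sg -
            eval (up0 (bt F ω)) (G (eP F (c r) sg (ptr F J ω)) r)) := by
        field_simp
      rw [h4]
      exact h3
    · rw [cx'_lt (by omega), sn_cs] at h1
      rw [if_neg h2, eval_cv, hg l (by omega)]
      exact h1
  · have h1 := h.agr ω hω l hl (up0 b) (by
      rw [exF_ptr]
      refine nbx_dn (by omega) (fun l' hl' => ?_) (fun l' hl' => hg l' (by omega)) hb
      exact if_neg (by omega))
    rw [exF_ptr, exF_slam] at h1
    by_cases h2 : l = r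
    · rw [h2] at h1 ⊢
      rw [if_pos rfl, if_pos rfl, map_mul, map_mul, eval_C, eval_cv, eval_cv, ← mul_sub]
      exact hw2 _ h1
    · rw [if_neg h2, if_neg h2, eval_cv, eval_cv, hg l (by omega)]
      exact h1
  · have h1 := h.lip ω hω l hl (up0 b) (by
      rw [exF_ptr]
      refine nbx_dn (by omega) (fun l' hl' => ?_) (fun l' hl' => hg l' (by omega)) hb
      exact if_neg (by omega)) k hk
    rw [exF_ptr, cx'_lt (by omega)] at h1
    have h3 := hnl l k hk (by omega)
    by_cases h2 : l = r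
    · rw [h2] at h1 h3 ⊢
      rw [if_pos rfl, pderiv_C_mul, map_mul, eval_C, pd_cv, eval_cv, abs_mul, abs_of_pos p2]
      calc 2 ^ sg * |eval (up0 b) (pderiv (some (Fin.castSucc (c k)))
            (G (eP F (c r) sg (ptr F J ω)) r))| ≤ 2 ^ sg * 2 ^ (e + nlp g k r) :=
          mul_le_mul_of_nonneg_left h1 p2.le
        _ = 2 ^ (sg + (e + nlp g k r)) := by rw [pow_add 2 sg]
        _ ≤ 2 ^ (e₂ + nlp g₂ k r) := pow_le_pow_right₀ (by norm_num) (by omega)
    · rw [if_neg h2, pd_cv, eval_cv]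
      exact h1.trans (pow_le_pow_right₀ (by norm_num) (by omega))

end chain

/-! ### Relations -/

/-- The substitution of `2 ^ sg` times the last variable in the variable `k`. -/
noncomputable def wx (k : Fin m) (sg : ℕ) (o : Option (Fin m)) :
    MvPolynomial (Option (Fin (m + 1))) ℝ :=
  if o = some k then C (2 ^ sg) * X (some (Fin.last m)) else X (vx m o)

/-- The point of the family. -/
noncomputable def dn (k : Fin m) (sg : ℕ) (b : Option (Fin (m + 1)) → ℝ) (o : Option (Fin m)) :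
    ℝ := if o = some k then 2 ^ sg * b (some (Fin.last m)) else b (vx m o)

/-- The point of the extended family. -/
noncomputable def upc (k : Fin m) (sg : ℕ) (b : Option (Fin m) → ℝ)
    (o : Option (Fin (m + 1))) : ℝ :=
  o.elim (b none) (fun i => sn (fun j => b (some j)) (b (some k) / 2 ^ sg) i)

theorem dn_upc (k : Fin m) (sg : ℕ) (b : Option (Fin m) → ℝ) : dn k sg (upc k sg b) = b := by
  funext o
  unfold dn
  split_ifs with h
  · rw [h]
    show 2 ^ sg * sn (fun j => b (some j)) (b (some k) / 2 ^ sg) (Fin.last m) = _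
    rw [sn_last]
    field_simp
  · rcases o with _ | i
    · rfl
    · exact sn_cs (fun j => b (some j)) (b (some k) / 2 ^ sg) i

theorem upc_vx (k : Fin m) (sg : ℕ) (b : Option (Fin m) → ℝ) : upc k sg b ∘ vx m = b := by
  funext o
  rcases o with _ | i
  · rfl
  · exact sn_cs (fun j => b (some j)) (b (some k) / 2 ^ sg) i

/-- The relation in the extended family. -/
noncomputable def rl (k : Fin m) (sg : ℕ) (Q : MvPolynomial (Option (Fin m)) ℝ) :
    MvPolynomial (Option (Fin (m + 1))) ℝ := aeval (wx k sg) Q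

theorem eval_rl (k : Fin m) (sg : ℕ) (Q : MvPolynomial (Option (Fin m)) ℝ)
    (b : Option (Fin (m + 1)) → ℝ) : eval b (rl k sg Q) = eval (dn k sg b) Q := by
  unfold rl
  rw [eval_aevalσ]
  congr 1
  congr 1
  funext o
  unfold wx dn
  split_ifs
  · rw [map_mul, eval_C, eval_X]
  · rw [eval_X]

theorem rl_deg {k : Fin m} {sg D : ℕ} {Q : MvPolynomial (Option (Fin m)) ℝ}
    (h : Q.totalDegree ≤ D) : (rl k sg Q).totalDegree ≤ D := by
  have h1 := totalDegree_aevalσ (g := wx k sg) (d := 1) (fun o => by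
    unfold wx
    split_ifs
    · refine (totalDegree_mul _ _).trans ?_
      rw [totalDegree_C, zero_add]
      exact (totalDegree_X _).le
    · exact (totalDegree_X _).le) h
  rw [one_mul] at h1
  exact h1

section rel

variable {F : Fam m J} {c : ℕ → Fin m} {r sg : ℕ}

theorem dn_lt (hc : Inj c (r + 1)) {l : ℕ} (hl : l < r) (b : Option (Fin (m + 1)) → ℝ) :
    dn (c r) sg b (some (c l)) = b (some (Fin.castSucc (c l))) := by
  unfold dn
  rw [if_neg]
  · rfl
  · intro h
    have := hc l (by omega) r (by omega) (Option.some_inj.1 h)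
    omega

theorem dn_r (b : Option (Fin (m + 1)) → ℝ) :
    dn (c r) sg b (some (c r)) = 2 ^ sg * b (some (Fin.last m)) := if_pos rfl

theorem dn_none (b : Option (Fin (m + 1)) → ℝ) : dn (c r) sg b none = b none := by
  unfold dn
  rw [if_neg (by simp)]
  rfl

theorem rl_dep (hc : Inj c (r + 1)) {Q : MvPolynomial (Option (Fin m)) ℝ}
    (h : DepC c (r + 1) Q) : DepC (cx' c r) (r + 1) (rl (c r) sg Q) := by
  intro b b' h0 hb
  rw [eval_rl, eval_rl]
  refine h _ _ (by rw [dn_none, dn_none, h0]) fun l hl => ?_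
  rcases Nat.lt_or_ge l r with h1 | h1
  · rw [dn_lt hc h1, dn_lt hc h1, ← cx'_lt h1]
    exact hb l hl
  · have h2 : l = r := by omega
    have h3 := hb r (by omega)
    rw [cx'_r] at h3
    rw [h2, dn_r, dn_r, h3]

theorem dn_bt (ω : F.Ω) : dn (c r) sg (bt (exF F (c r) sg) ω) = bt F ω := by
  funext o
  unfold dn
  split_ifs with h
  · rw [h]
    show 2 ^ sg * (exF F (c r) sg).x ω (Fin.last m) = F.x ω (c r)
    rw [exF_x, sn_last]
    field_simp
  · exact congrFun (bt_vx F (c r) sg ω) o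

/-- The system at the point of the family. -/
theorem eval_Gdn {G : ℕ → MvPolynomial (Option (Fin m)) ℝ} (hc : Inj c (r + 1))
    (hG : ∀ i, DepC c i (G i)) {l : ℕ} (hl : l ≤ r) (b : Option (Fin (m + 1)) → ℝ) :
    eval (b ∘ vx m) (G l) = eval (dn (c r) sg b) (G l) := by
  refine hG l _ _ ?_ fun l' hl' => ?_
  · rw [dn_none]
    rfl
  · rw [dn_lt hc (by omega)]
    rfl

theorem nbx_dnw {G : ℕ → MvPolynomial (Option (Fin m)) ℝ} {g g' : ℕ → ℕ} {a : ℕ} {t : ℝ}
    {b : Option (Fin (m + 1)) → ℝ} (hc : Inj c (r + 1)) (hG : ∀ i, DepC c i (G i))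
    (hg : ∀ l < r, g' l = g l) (hr : g' r = g r + sg)
    (h : NBx (cx' c r) (Gx sg r G) g' a t (r + 1) b) :
    NBx c G g a t (r + 1) (dn (c r) sg b) := by
  have p2 : (0 : ℝ) < 2 ^ sg := by positivity
  refine ⟨by rw [dn_none]; exact h.1, fun l hl => ?_⟩
  have h1 := h.2 l hl
  rw [Gx_eval (by omega)] at h1
  rcases Nat.lt_or_ge l r with h2 | h2
  · rw [Gw_lt h2, hg l h2, cx'_lt h2, eval_Gdn (sg := sg) hc hG h2.le] at h1
    rw [dn_lt hc h2]
    exact h1
  · have h3 : l = r := by omega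
    rw [h3] at h1 ⊢
    rw [Gw_r, map_mul, eval_C, eval_Gdn (sg := sg) hc hG le_rfl, cx'_r, hr] at h1
    rw [dn_r]
    have h4 : 2 ^ sg * b (some (Fin.last m)) - eval (dn (c r) sg b) (G r) =
        2 ^ sg * (b (some (Fin.last m)) - 1 / 2 ^ sg * eval (dn (c r) sg b) (G r)) := by
      field_simp
    rw [h4, abs_mul, abs_of_pos p2]
    calc _ ≤ 2 ^ sg * (1 / 2 ^ (g r + sg)) := mul_le_mul_of_nonneg_left h1 p2.le
      _ = 1 / 2 ^ g r := by
        rw [pow_add]
        field_simp

theorem nbx_upc {G : ℕ → MvPolynomial (Option (Fin m)) ℝ} {g g' : ℕ → ℕ} {a : ℕ} {t : ℝ}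
    {b : Option (Fin m) → ℝ} (hg : ∀ l < r, g' l = g l) (hr : g' r = g r + sg)
    (h : NBx c G g a t (r + 1) b) :
    NBx (cx' c r) (Gx sg r G) g' a t (r + 1) (upc (c r) sg b) := by
  have p2 : (0 : ℝ) < 2 ^ sg := by positivity
  refine ⟨h.1, fun l hl => ?_⟩
  have h1 := h.2 l hl
  rw [Gx_eval (by omega), upc_vx]
  rcases Nat.lt_or_ge l r with h2 | h2
  · rw [Gw_lt h2, hg l h2, cx'_lt h2]
    have h3 : upc (c r) sg b (some (Fin.castSucc (c l))) = b (some (c l)) :=
      sn_cs (fun j => b (some j)) (b (some (c r)) / 2 ^ sg) (c l)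
    rw [h3]
    exact h1
  · have h3 : l = r := by omega
    rw [h3] at h1 ⊢
    have h4 : upc (c r) sg b (some (Fin.last m)) = b (some (c r)) / 2 ^ sg :=
      sn_last (fun j => b (some j)) (b (some (c r)) / 2 ^ sg)
    rw [Gw_r, map_mul, eval_C, cx'_r, hr, h4]
    have h5 : b (some (c r)) / 2 ^ sg - 1 / 2 ^ sg * eval b (G r) =
        1 / 2 ^ sg * (b (some (c r)) - eval b (G r)) := by ring
    rw [h5, abs_mul, abs_of_pos (by positivity : (0 : ℝ) < 1 / 2 ^ sg)]
    calc _ ≤ 1 / 2 ^ sg * (1 / 2 ^ g r) := mul_le_mul_of_nonneg_left h1 (by positivity)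
      _ = 1 / 2 ^ (g r + sg) := by
        rw [pow_add]
        field_simp

/-- The time of the extended family. -/
theorem tmN_ext {N e₀ : ℕ} {A : F.Ω → Prop} (h : Pool.RLV.TmN F N e₀ A) (j : Fin m) :
    Pool.RLV.TmN (exF F j sg) N e₀ A := by
  intro B hB hP
  refine (h B hB hP).trans (CH_mono_cond (cond_nonneg F.isLaw.nonneg B True) fun ω ω' _ _ e => ?_)
  have e1 := Prod.ext_iff.1 e
  have e2 := Prod.ext_iff.1 e1.1
  refine Prod.ext (Prod.ext ?_ ?_) e1.2
  · show sn (F.u ω) (F.u ω j / 2 ^ sg) = sn (F.u ω') (F.u ω' j / 2 ^ sg)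
    have e3 : F.u ω = F.u ω' := e2.1
    rw [e3]
  · show sn (F.d ω) (F.d ω j / 2 ^ sg) = sn (F.d ω') (F.d ω' j / 2 ^ sg)
    have e3 : F.d ω = F.d ω' := e2.2
    rw [e3]

end rel

end Pool.RLX
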