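import Pool.Agent.H99.CLO.Exd
import Pool.Agent.H2.GEN.Rlv
import Pool.Agent.H1.GEN.One

/-!
# No relation with a steep target in a class, from the thresholds

`relvN`: over the two-sided labels of the coordinates `c l`, `l < r` (small slopes) and of the
target `c r` (slopes at most `2 ^ sg`), a two-sided polynomial in the coordinates `c l`, `l ≤ r`,
which is small at the samples is small on the natural boxes.
-/

set_option autoImplicit false

namespace Pool.RLX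

open Finset Real MvPolynomial
open Pool.Agent.H49.Ent Pool.Agent.H32.Dense Pool.STK Pool.KA Pool.KSAT Pool.K2S Pool.PB Pool.S6C
open Pool.GEN Pool.M3F Pool.KS3 Pool.STAT Pool.STAT.CLO
open Pool.LBT (LSys ThrOf)
open Pool.LEV (Law)
open Pool.CHT (chsys bet Up1 TmH bas_ev big fin_pos pe_split Zf one_le_Zf dgp dgp_le' epf epf_pos
  epf_self epf_mul epf_le gls rec_sum no_unif tmN_of)
open Pool.ONE (tgs)
open Pool.LBN (Tch cof cof_lt cof_ge chn_congr)

variable {m J : ℕ} {θ : ℝ} {S : PCl m} {P : List (Fin m) × Fin m → ℝ → ℝ → ℝ} {Pt : ℝ → ℝ → ℝ}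

/-- **No better labels of the target**, the slopes are arbitrary. -/
theorem no_top {c : ℕ → Fin m} {r : ℕ} (hc : Set.InjOn c (Set.Iio (r + 1)))
    (hPt : ThrOf (tgs (c r)) S (fun _ => Pt)) (K : ℕ) (a w : ℚ) (h : ℝ) (hw : 0 ≤ w)
    (hwa : w ≤ a) (ha : a ≤ 1) (hh : 0 < h) (h1 : Pt a w + h ≤ 1) :
    Bas S (fun J F A => ∀ (a₀ w₀ e₀ : ℕ) (g : ℕ → ℕ), w₀ ≤ a₀ → a₀ ≤ ⌊(a : ℝ) * J⌋₊ →
      w₀ ≤ ⌊(w : ℝ) * J⌋₊ → (∀ l ≤ r, g l ≤ J) →
      ⌊(Pt a w + h) * J⌋₊ + a₀ ≤ g r + ⌊(a : ℝ) * J⌋₊ →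
      ¬ ChN F c (r + 1) (fun _ => K) a₀ w₀ e₀ g A) := by
  refine Bas.mono 0 (hPt.no () K a w h hw hwa ha hh h1) ?_
  intro J _ F A hn a₀ w₀ e₀ g k1 k2 k3 k4 k5 k6
  have hlen : ((List.range r).map c).length = r := by simp
  refine hn ⟨(List.range r).map c, ?_, ?_, a₀, w₀, e₀, g, k1, k2, k3, ?_, ?_, ?_⟩
  · refine List.Nodup.map_on ?_ List.nodup_range
    intro x hx y hy hxy
    rw [List.mem_range] at hx hy
    exact hc (show x < r + 1 by omega) (show y < r + 1 by omega) hxy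
  · intro h2
    obtain ⟨x, hx, hxy⟩ := List.mem_map.1 h2
    rw [List.mem_range] at hx
    have := hc (show x < r + 1 by omega) (show r < r + 1 by omega) hxy
    omega
  · rw [hlen]
    exact k5
  · rw [hlen]
    exact k4
  · rw [hlen]
    refine chn_congr k6 (fun i hi => ?_) (fun _ _ => le_rfl) fun _ _ => rfl
    rcases Nat.lt_or_ge i r with h2 | h2
    · rw [cof_lt (by rw [hlen]; exact h2)]
      simp
    · rw [cof_ge (by rw [hlen]; exact h2)]
      congr 1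
      omega

/-- Chains only depend on their precisions before the end. -/
theorem ok_cg {F : Fam m J} {c : ℕ → Fin m} {r : ℕ} {K : ℕ → ℕ} {a w e : ℕ} {g g' : ℕ → ℕ}
    {A : F.Ω → Prop} {G : PtT F → ℕ → MvPolynomial (Option (Fin m)) ℝ}
    {H : LnT F → ℕ → MvPolynomial (Option (Fin m)) ℝ} (h : ChOK F c r K a w e g A G H)
    (hg : ∀ l < r, g' l = g l) : ChOK F c r K a w e g' A G H := by
  have hb : ∀ {y : PtT F} {t : ℝ} {i : ℕ} {b : Option (Fin m) → ℝ}, i < r →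
      NBx c (G y) g' a t i b → NBx c (G y) g a t i b := fun hi hb =>
    ⟨hb.1, fun l hl => by rw [← hg l (hl.trans hi)]; exact hb.2 l hl⟩
  refine ⟨h.degG, h.degH, h.depG, h.depH, fun ω hω i hi => ?_, fun ω hω i hi b hbx => ?_,
    fun ω hω i hi b hbx l hl => ?_⟩
  · rw [hg i hi]
    exact h.pos ω hω i hi
  · rw [hg i hi]
    exact h.agr ω hω i hi b (hb hi hbx)
  · have e1 : nlp g' l i = nlp g l i := by
      unfold nlp
      rw [hg i hi, Finset.sup_congr rfl fun j hj => hg j ((Finset.mem_Icc.1 hj).2.trans_lt hi)]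
    rw [e1]
    exact h.lip ω hω i hi b (hb hi hbx) l hl

/-- The chain in the extended family, constant degrees. -/
theorem ok_ext {F : Fam m J} {c : ℕ → Fin m} {r K : ℕ} {Kv : ℕ → ℕ} {W e EN sg : ℕ}
    {g g' : ℕ → ℕ} {A : F.Ω → Prop} {G : PtT F → ℕ → MvPolynomial (Option (Fin m)) ℝ}
    {H : LnT F → ℕ → MvPolynomial (Option (Fin m)) ℝ} (hK : ∀ i < r + 1, Kv i ≤ K)
    (hg : ∀ l < r, g' l = g l) (hr : g' r = g r + sg) (hEN : ∀ l < r, EN + nlp g l r ≤ sg + e)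
    (hV : ChOK F c r Kv W W e g A G H) (hN : ChOK F c (r + 1) Kv W W EN g A G H) :
    ChOK (exF F (c r) sg) (cx' c r) (r + 1) (fun _ => K) W W e g' A
      (fun y => Gx sg r (G (rP F (c r) sg y))) (fun s => Gx sg r (H (rL F (c r) sg s))) := by
  have h2 : (2 : ℝ) ^ sg / 2 ^ g' r = 1 / 2 ^ g r := by
    rw [hr, pow_add]
    field_simp
  have hb : ∀ {y : PtT F} {t : ℝ} {b : Option (Fin m) → ℝ},
      NBx c (G y) g' W t r b → NBx c (G y) g W t r b := fun hb =>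
    ⟨hb.1, fun l hl => by rw [← hg l hl]; exact hb.2 l hl⟩
  have h := ch_ext (sg := sg) (ok_cg hV hg) (fun ω hω => by
      rw [h2]
      exact hN.pos ω hω r (Nat.lt_succ_self r))
    (fun ω hω b hbx => by
      rw [h2]
      exact hN.agr ω hω r (Nat.lt_succ_self r) b (hb hbx))
    (fun ω hω b hbx l hl => by
      refine (hN.lip ω hω r (Nat.lt_succ_self r) b (hb hbx) l hl).trans ?_
      rw [← pow_add]
      refine pow_le_pow_right₀ (by norm_num) ?_
      have := hEN l hl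
      omega)
  have hdeg : ∀ (G : ℕ → MvPolynomial (Option (Fin m)) ℝ), (∀ i, (G i).totalDegree ≤ Kv i) →
      ∀ i, (Gx sg r G i).totalDegree ≤ K := by
    intro G hG i
    rcases Nat.lt_or_ge i (r + 1) with h1 | h1
    · exact Gx_deg ((hG i).trans (hK i h1))
    · unfold Gx
      rw [if_neg (by omega), totalDegree_zero]
      exact Nat.zero_le _
  exact ⟨fun y i => hdeg _ (hV.degG _) i, fun s i => hdeg _ (hV.degH _) i, h.depG, h.depH, h.pos,
    h.agr, h.lip⟩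

/-- **No relation with a steep target**, for the member itself. -/
theorem relvN_self (hP : ThrOf (chsys m θ) S P) (hθ : 0 < θ) (hS : TmH S) {c : ℕ → Fin m} {r : ℕ}
    (hc : Set.InjOn c (Set.Iio (r + 1))) (hPt : ThrOf (tgs (c r)) S (fun _ => Pt)) {w s vs : ℝ}
    (hw : 0 < w) (hw1 : w < 1) (hs : 0 ≤ s) (hup : ∀ l < r, Up1 (bet P c l) w w)
    (hupt : Up1 Pt w w) (hvis : ∀ l < r, bet P c l w w + θ * w < 1) (hvs : 0 ≤ vs)
    (hvsθ : 2 * vs < θ * w) (hsrt : ∀ i < r, ∀ l < i, bet P c l w w ≤ bet P c i w w + vs)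
    (hsN : ∀ l < r, bet P c l w w ≤ Pt w w + s + vs) (hroom : Pt w w + s + vs < 1)
    (D K : ℕ) {η η' : ℝ} (hη : 0 < η) (hη' : 0 < η') : ∃ φ : ℝ, 0 < φ ∧
    Bas S (fun J F A => ∀ (e EN sg : ℕ) (g Kv : ℕ → ℕ)
      (G : PtT F → ℕ → MvPolynomial (Option (Fin m)) ℝ)
      (H : LnT F → ℕ → MvPolynomial (Option (Fin m)) ℝ),
      (e : ℝ) ≤ φ * J → |(sg : ℝ) - s * J| ≤ φ * J → (∀ i < r + 1, Kv i ≤ K) →
      (∀ l < r, |(g l : ℝ) - bet P c l w w * J| ≤ φ * J) → |(g r : ℝ) - Pt w w * J| ≤ φ * J →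
      (∀ l < r, EN + nlp g l r ≤ sg + e) →
      ChOK F c r Kv ⌊w * J⌋₊ ⌊w * J⌋₊ e g A G H →
      ChOK F c (r + 1) Kv ⌊w * J⌋₊ ⌊w * J⌋₊ EN g A G H →
      ∀ (Dx : PtT F → MvPolynomial (Option (Fin m)) ℝ)
        (Dl : LnT F → MvPolynomial (Option (Fin m)) ℝ) (N₀ : ℕ),
      (∀ y, (Dx y).totalDegree ≤ D) → (∀ s, (Dl s).totalDegree ≤ D) →
      (∀ y, DepC c (r + 1) (Dx y)) → (∀ s, DepC c (r + 1) (Dl s)) →
      (∀ ω, A ω → |eval (bt F ω) (Dx (ptr F J ω))| ≤ 1 / 2 ^ N₀) →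
      (∀ ω, A ω → ∀ b, NBx c (G (ptr F J ω)) g ⌊w * J⌋₊ (F.t ω) (r + 1) b →
        |eval b (Dx (ptr F J ω)) - eval b (Dl (slam F ⌊w * J⌋₊ ω))| ≤ 1 / 2 ^ N₀) →
      ∃ B : F.Ω → Prop, Sub B A ∧ (1 - η') * Pe F.p A ≤ Pe F.p B ∧ ∀ ω, B ω →
        ∀ b, NBx c (G (ptr F J ω)) g ⌊w * J⌋₊ (F.t ω) (r + 1) b →
          |eval b (Dx (ptr F J ω))| ≤ 2 ^ ⌊η * J⌋₊ / 2 ^ N₀) := by
  classical
  obtain ⟨R, hR⟩ : ∃ R, R = r + 1 := ⟨_, rfl⟩
  have hcI : Inj c (r + 1) := fun l hl l' hl' h => hc hl hl' h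
  have hcr : Inj c r := fun l hl l' hl' h => hcI l (by omega) l' (by omega) h
  have hcX : Inj (cx' c r) (r + 1) := cx'_inj hcr
  have hcX' : Set.InjOn (cx' c r) (Set.Iio R) := fun l hl l' hl' h => by
    rw [hR] at hl hl'
    exact hcX l hl l' hl' h
  -- the thresholds
  obtain ⟨f, hf⟩ : ∃ f : ℕ → ℝ → ℝ → ℝ, f = fun l => if l < r then bet P c l else Pt := ⟨_, rfl⟩
  have hfl : ∀ l < r, f l = bet P c l := fun l hl => by rw [hf]; exact if_pos hl
  have hfr : f r = Pt := by rw [hf]; exact if_neg (lt_irrefl r)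
  obtain ⟨ls, hls⟩ : ∃ ls : ℕ → ℝ, ls = fun l => if l < r then 0 else s := ⟨_, rfl⟩
  have hlsl : ∀ l < r, ls l = 0 := fun l hl => by rw [hls]; exact if_pos hl
  have hlsr : ls r = s := by rw [hls]; exact if_neg (lt_irrefl r)
  have hls0 : ∀ l, 0 ≤ ls l := fun l => by
    rw [hls]
    show 0 ≤ if l < r then 0 else s
    split_ifs
    · exact le_rfl
    · exact hs
  have hcas : ∀ l < R, l < r ∨ l = r := fun l hl => by omega
  have hlaw : ∀ l < R, Law (f l) := fun l hl => by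
    rcases hcas l hl with h | h
    · rw [hfl l h]; exact hP.law _
    · rw [h, hfr]; exact hPt.law ()
  have hflow : ∀ l < R, ∀ a w : ℝ, 0 ≤ w → w ≤ a → a ≤ 1 → a ≤ f l a w := fun l hl => by
    rcases hcas l hl with h | h
    · rw [hfl l h]; exact fun a w => hP.low _ a w
    · rw [h, hfr]; exact fun a w => hPt.low () a w
  have hfup : ∀ l < R, Up1 (f l) w w := fun l hl => by
    rcases hcas l hl with h | h
    · rw [hfl l h]; exact hup l h
    · rw [h, hfr]; exact hupt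
  obtain ⟨β, hβ⟩ : ∃ β : ℕ → ℝ, β = fun l => f l w w + ls l := ⟨_, rfl⟩
  have hβv : ∀ l, β l = f l w w + ls l := fun l => by rw [hβ]
  have hβσ : ∀ l < R, β l + vs < 1 := fun l hl => by
    rcases hcas l hl with h | h
    · rw [hβv, hfl l h, hlsl l h]
      linarith [hvis l h]
    · rw [hβv, h, hfr, hlsr]
      exact hroom
  have hβs : ∀ i < R, ∀ l < i, β l ≤ β i + vs := fun i hi l hl => by
    have hlr : l < r := by omega
    rcases hcas i hi with h | h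
    · rw [hβv, hβv, hfl l hlr, hlsl l hlr, hfl i h, hlsl i h]
      linarith [hsrt i h l hl]
    · rw [hβv, hβv, hfl l hlr, hlsl l hlr, h, hfr, hlsr]
      linarith [hsN l hlr]
  have hβw : ∀ l < R, w ≤ β l := fun l hl => by
    rw [hβv]
    linarith [hflow l hl w w hw.le le_rfl hw1.le, hls0 l]
  -- the constants of the growth
  have hup' : ∀ l, ∃ V o₀ : ℝ, 0 ≤ V ∧ 0 < o₀ ∧ (l < R → ∀ o : ℝ, 0 < o → o < o₀ →
      f l (w + o) (w + o) ≤ f l w w + V * o) := by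
    intro l
    by_cases hl : l < R
    · obtain ⟨V, o₀, h1, h2, h3⟩ := hfup l hl
      exact ⟨V, o₀, h1, h2, fun _ => h3⟩
    · exact ⟨0, 1, le_rfl, one_pos, fun h => absurd h hl⟩
  choose Vl ol hV0 ho0 hup' using hup'
  obtain ⟨o₀, ho₀, ho₁⟩ := fin_pos R (f := ol) fun k _ => ho0 k
  obtain ⟨V₀, hV₀⟩ : ∃ V₀, V₀ = ∑ l ∈ range R, Vl l := ⟨_, rfl⟩
  have hV₀0 : 0 ≤ V₀ := by rw [hV₀]; exact Finset.sum_nonneg fun l _ => hV0 l
  have hVl : ∀ l < R, Vl l ≤ V₀ := fun l hl => by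
    rw [hV₀]
    exact Finset.single_le_sum (f := Vl) (fun l _ => hV0 l) (mem_range.2 hl)
  have hgr : ∀ l < R, ∀ o : ℝ, 0 < o → o < o₀ →
      f l (w + o) (w + o) ≤ f l w w + V₀ * o := fun l hl o h1 h2 => by
    have h3 := hup' l hl o h1 (h2.trans_le (ho₁ l hl))
    have h4 := mul_le_mul_of_nonneg_right (hVl l hl) h1.le
    linarith
  obtain ⟨σ, hσ, hσl⟩ := fin_pos R (f := fun l => 1 - (β l + vs)) fun l hl => by
    linarith [hβσ l hl]
  obtain ⟨V, hV⟩ : ∃ V : ℕ, V = ⌈16 * V₀⌉₊ + 4 := ⟨_, rfl⟩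
  have hVr : 16 * V₀ + 4 ≤ (V : ℝ) := by
    rw [hV]
    push_cast
    have := Nat.le_ceil (16 * V₀)
    linarith
  obtain ⟨o', ho'⟩ : ∃ o' : ℝ, o' = min (o₀ / 4) (min ((1 - w) / 4) (σ / (8 * (V₀ + 1)))) :=
    ⟨_, rfl⟩
  have ho'0 : 0 < o' := by
    rw [ho']
    exact lt_min (by positivity) (lt_min (by linarith) (by positivity))
  have ho'1 : o' ≤ o₀ / 4 := by rw [ho']; exact min_le_left _ _
  have ho'2 : o' ≤ (1 - w) / 4 := by rw [ho']; exact (min_le_right _ _).trans (min_le_left _ _)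
  have ho'3 : 8 * V₀ * o' ≤ σ := by
    have h1 : o' ≤ σ / (8 * (V₀ + 1)) := by
      rw [ho']; exact (min_le_right _ _).trans (min_le_right _ _)
    rw [le_div_iff₀ (by positivity)] at h1
    nlinarith
  obtain ⟨σ₂, hσ₂⟩ : ∃ σ₂, σ₂ = θ * w - 2 * vs := ⟨_, rfl⟩
  have hσ₂0 : 0 < σ₂ := by rw [hσ₂]; linarith
  obtain ⟨εh, hεh⟩ : ∃ εh : ℝ, εh = min (η / 8) (min (o' / 8) (min (σ / (8 * (V + 10)))
    (min (σ₂ / 32) (w / 32)))) := ⟨_, rfl⟩
  have hε0 : 0 < εh := by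
    rw [hεh]
    exact lt_min (by positivity) (lt_min (by positivity) (lt_min (by positivity)
      (lt_min (by positivity) (by positivity))))
  have hε1 : εh ≤ η / 8 := by rw [hεh]; exact min_le_left _ _
  have hε2 : εh ≤ o' / 8 := by rw [hεh]; exact (min_le_right _ _).trans (min_le_left _ _)
  have hε3 : 8 * (V + 10) * εh ≤ σ := by
    have h1 : εh ≤ σ / (8 * (V + 10)) := by
      rw [hεh]
      exact (min_le_right _ _).trans ((min_le_right _ _).trans (min_le_left _ _))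
    rw [le_div_iff₀ (by positivity)] at h1
    linarith
  have hε4 : εh ≤ σ₂ / 32 := by
    rw [hεh]
    exact (min_le_right _ _).trans ((min_le_right _ _).trans ((min_le_right _ _).trans
      (min_le_left _ _)))
  have hε5 : εh ≤ w / 32 := by
    rw [hεh]
    exact (min_le_right _ _).trans ((min_le_right _ _).trans ((min_le_right _ _).trans
      (min_le_right _ _)))
  have hV0' : (0 : ℝ) ≤ V := Nat.cast_nonneg V
  have hε3' : 80 * εh ≤ σ := by
    have : 0 ≤ V * εh := by positivity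
    linarith
  obtain ⟨Kc, hKc⟩ : ∃ Kc : ℕ → ℕ, Kc = fun _ => K := ⟨_, rfl⟩
  obtain ⟨eps, heps⟩ : ∃ eps : ℕ → ℝ, eps = epf V D R R Kc εh := ⟨_, rfl⟩
  obtain ⟨T, hT⟩ : ∃ T : ℕ → ℕ, T = fun j => R + D + 1 + ∑ l' ∈ Finset.Ioo j R, Kc l' := ⟨_, rfl⟩
  have hep0 : ∀ j, 0 < eps j := fun j => by rw [heps]; exact epf_pos hε0 j
  have hepi : eps R = εh := by rw [heps]; exact epf_self
  have heple : ∀ j ≤ R, eps j ≤ εh := fun j hj => by rw [heps]; exact epf_le hε0 hj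
  have hepm : ∀ j l, j < l → l ≤ R → eps j * Zf V D R (T j) ≤ eps l := fun j l h1 h2 => by
    rw [heps, hT]; exact epf_mul hε0 h1 h2
  have hT1 : ∀ j, 1 ≤ T j := fun j => by rw [hT]; show 1 ≤ R + D + 1 + _; omega
  have hdg : ∀ j l, j < l → l ≤ R → dgp Kc j l ≤ T j ^ R := fun j l _ hl =>
    dgp_le' Kc hl le_rfl (by rw [hT]; show _ ≤ R + D + 1 + _; omega)
  have hKT : ∀ j l, j < l → l < R → Kc l ≤ T j := fun j l h1 h2 => by
    have : Kc l ≤ ∑ l' ∈ Finset.Ioo j R, Kc l' :=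
      Finset.single_le_sum (f := Kc) (fun _ _ => Nat.zero_le _)
        (Finset.mem_Ioo.2 ⟨by omega, by omega⟩)
    rw [hT]
    show Kc l ≤ R + D + 1 + _
    omega
  have hDT : ∀ j, D ≤ T j := fun j => by rw [hT]; show D ≤ R + D + 1 + _; omega
  -- the sums of the losses
  have hloss : ∀ j l k, j < l → l ≤ R → k ≤ T j →
      12 * ((R : ℝ) + 1) * (eps j * (k * dgp Kc j l : ℕ)) ≤ eps l := by
    intro j l k h1 h2 h3
    have h4 : k * dgp Kc j l ≤ T j ^ (R + 1) := by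
      calc k * dgp Kc j l ≤ T j * T j ^ R := Nat.mul_le_mul h3 (hdg j l h1 h2)
        _ = _ := by rw [pow_succ]; ring
    have h5 : 12 * (R + 1) * (k * dgp Kc j l) ≤ Zf V D R (T j) := by
      unfold Zf
      calc 12 * (R + 1) * (k * dgp Kc j l) ≤ 12 * (R + 1) * T j ^ (R + 1) :=
            Nat.mul_le_mul_left _ h4
        _ ≤ _ := Nat.le_add_left _ _
    have h6 : 12 * ((R : ℝ) + 1) * ((k * dgp Kc j l : ℕ) : ℝ) ≤ Zf V D R (T j) := by
      exact_mod_cast h5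
    refine le_trans ?_ (hepm j l h1 h2)
    calc 12 * ((R : ℝ) + 1) * (eps j * ((k * dgp Kc j l : ℕ) : ℝ)) =
          eps j * (12 * (R + 1) * ((k * dgp Kc j l : ℕ) : ℝ)) := by ring
      _ ≤ _ := mul_le_mul_of_nonneg_left h6 (hep0 j).le
  obtain ⟨κ, N, Kn, hκ1, hrel⟩ := Pool.RLV.relv_fam V D R Kc
  obtain ⟨εm, hεm, hεml⟩ := fin_pos (R + 1) (f := eps) fun k _ => hep0 k
  have hεmh : εm ≤ εh := by
    rw [← hepi]
    exact hεml R (by omega)
  obtain ⟨εt, hεt⟩ : ∃ εt : ℝ, εt = εm / (4 * (κ + 1)) := ⟨_, rfl⟩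
  have hεt0 : 0 < εt := by rw [hεt]; positivity
  have hεtκ : κ * εt ≤ εm / 4 := by
    have h1 : 4 * (κ + 1) * εt = εm := by rw [hεt]; field_simp
    linarith
  -- the grid
  obtain ⟨km, hkm⟩ := exists_pow_lt_of_lt_one (show 0 < 2 * εm / o' by positivity)
    (show (1 / 2 : ℝ) < 1 by norm_num)
  have hgrid : ∀ k : ℕ, ∃ a' w' : ℚ, w + o' * (1 / 2) ^ k < w' ∧
      (w' : ℝ) < w + 3 / 2 * (o' * (1 / 2) ^ k) ∧ w + 3 / 2 * (o' * (1 / 2) ^ k) < a' ∧
      (a' : ℝ) < w + 2 * (o' * (1 / 2) ^ k) := by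
    intro k
    have h1 : 0 < o' * (1 / 2 : ℝ) ^ k := by positivity
    obtain ⟨w', h2, h3⟩ := exists_rat_btwn (show w + o' * (1 / 2) ^ k <
      w + 3 / 2 * (o' * (1 / 2) ^ k) by linarith)
    obtain ⟨a', h4, h5⟩ := exists_rat_btwn (show w + 3 / 2 * (o' * (1 / 2) ^ k) <
      w + 2 * (o' * (1 / 2) ^ k) by linarith)
    exact ⟨a', w', h2, h3, h4, h5⟩
  choose a' w' hw'1 hw'2 ha'1 ha'2 using hgrid
  have hok : ∀ k, 0 < o' * (1 / 2 : ℝ) ^ k ∧ o' * (1 / 2 : ℝ) ^ k ≤ o' := fun k =>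
    ⟨by positivity, mul_le_of_le_one_right ho'0.le (pow_le_one₀ (by norm_num) (by norm_num))⟩
  have hbk : ∀ k, ∀ l < R, f l (a' k) (w' k) ≤
      f l w w + V₀ * (2 * (o' * (1 / 2) ^ k)) := by
    intro k l hl
    obtain ⟨h1, h2⟩ := hok k
    refine le_trans ?_ (hgr l hl (2 * (o' * (1 / 2) ^ k)) (by linarith) (by linarith))
    exact (hlaw l hl).mono (by linarith [hw'1 k]) (by linarith [hw'2 k, ha'1 k])
      (ha'2 k).le (by linarith [hw'2 k]) (by linarith) (by linarith)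
  have hκ' : 0 < η' / ((N : ℝ) + 1) := by positivity
  have hno := Bas.all (S := S) km (Φ := fun k J F A => ∀ l < R, ∀ B : F.Ω → Prop, Sub B A →
      η' / ((N : ℝ) + 1) * Pe F.p A ≤ Pe F.p B → ∀ (a₀ w₀ e₀ : ℕ) (g : ℕ → ℕ), w₀ ≤ a₀ →
      a₀ ≤ ⌊(a' k : ℝ) * J⌋₊ → w₀ ≤ ⌊(w' k : ℝ) * J⌋₊ → (l < r → e₀ ≤ ⌊θ * w * J⌋₊) →
      (∀ l' ≤ l, g l' ≤ J) →
      ⌊(f l (a' k) (w' k) + eps l) * J⌋₊ + a₀ ≤ g l + ⌊(a' k : ℝ) * J⌋₊ →
      ¬ ChN F c (l + 1) (fun _ => Kn) a₀ w₀ e₀ g B) fun k _ =>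
    Bas.all (S := S) R (Φ := fun l J F A => ∀ B : F.Ω → Prop, Sub B A →
      η' / ((N : ℝ) + 1) * Pe F.p A ≤ Pe F.p B → ∀ (a₀ w₀ e₀ : ℕ) (g : ℕ → ℕ), w₀ ≤ a₀ →
      a₀ ≤ ⌊(a' k : ℝ) * J⌋₊ → w₀ ≤ ⌊(w' k : ℝ) * J⌋₊ → (l < r → e₀ ≤ ⌊θ * w * J⌋₊) →
      (∀ l' ≤ l, g l' ≤ J) →
      ⌊(f l (a' k) (w' k) + eps l) * J⌋₊ + a₀ ≤ g l + ⌊(a' k : ℝ) * J⌋₊ →
      ¬ ChN F c (l + 1) (fun _ => Kn) a₀ w₀ e₀ g B) fun l hl => by
    obtain ⟨h1, h2⟩ := hok k
    have h3 : (0 : ℝ) ≤ w' k := by linarith [hw'1 k]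
    have h4 : (w' k : ℝ) ≤ a' k := by linarith [hw'2 k, ha'1 k]
    have h5 : (a' k : ℝ) ≤ 1 := by linarith [ha'2 k]
    have h6 := hbk k l hl
    have h7 := hσl l hl
    have h8 := heple l hl.le
    have h9 : V₀ * (2 * (o' * (1 / 2) ^ k)) ≤ σ / 4 := by
      have := mul_le_mul_of_nonneg_left h2 hV₀0
      linarith
    have h11 : 0 ≤ V * εh := by positivity
    have h12 : f l (a' k) (w' k) + eps l ≤ 1 := by
      have := hls0 l
      rw [hβv] at h7
      linarith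
    rcases hcas l hl with hlr | hlr
    · rw [hfl l hlr] at h12
      refine Bas.mono 0 (bas_ev (no_unif hP c l (fun _ => Kn) (a' k) (w' k) (θ * w) (eps l)
        (by exact_mod_cast h3) (by exact_mod_cast h4) (by exact_mod_cast h5)
        (mul_lt_mul_of_pos_left (by linarith [hw'1 k]) hθ) (hep0 l) h12) hκ') ?_
      intro J _ F A h B k1 k2 a₀ w₀ e₀ g k3 k4 k5 k6 k7 k8
      rw [hfl l hlr] at k8
      exact h B k1 k2 a₀ w₀ e₀ g k3 k4 k5 (k6 hlr) k7 k8
    · subst hlr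
      rw [hfr] at h12
      refine Bas.mono 0 (bas_ev (no_top hc hPt Kn (a' k) (w' k) (eps l)
        (by exact_mod_cast h3) (by exact_mod_cast h4) (by exact_mod_cast h5) (hep0 l) h12) hκ') ?_
      intro J _ F A h B k1 k2 a₀ w₀ e₀ g k3 k4 k5 _ k7 k8
      rw [hfr] at k8
      exact h B k1 k2 a₀ w₀ e₀ g k3 k4 k5 k7 k8
  have htm := bas_ev (hS.2 (εt / 4) (by positivity)) hκ'
  obtain ⟨J₁, hJ₁⟩ := big ((κ : ℝ) + 10) (show 0 < εm / 8 by positivity)
  obtain ⟨J₂, hJ₂⟩ := big (8 : ℝ) (show 0 < εt / 4 by positivity)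
  refine ⟨εm / 16, by positivity, Bas.mono (max J₁ J₂) (hno.and htm) ?_⟩
  rintro J hJ F A ⟨hnoJ, htmJ⟩ e EN sg g₀ Kv G H he hsg hKv hgl hgN hEN hVc hNc Dx Dl N₀ k1 k2 k3
    k4 k5 k6
  have hJ1 := hJ₁ J (le_trans (le_max_left _ _) hJ)
  have hJ2 := hJ₂ J (le_trans (le_max_right _ _) hJ)
  have hJ0 : (0 : ℝ) ≤ J := Nat.cast_nonneg J
  have hJp : (0 : ℝ) < J := by
    rcases hJ0.lt_or_eq with h | h
    · exact h
    · rw [← h] at hJ2; norm_num at hJ2
  have hκr : (1 : ℝ) ≤ κ := by exact_mod_cast hκ1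
  have hJm : ∀ j ≤ R, (κ : ℝ) + 10 ≤ eps j / 8 * J := fun j hj =>
    hJ1.trans (mul_le_mul_of_nonneg_right (by linarith [hεml j (by omega)]) hJ0)
  have hmJ0 : 0 ≤ εm * J := by positivity
  have hmJh : εm * J ≤ εh * J := mul_le_mul_of_nonneg_right hεmh hJ0
  -- the precisions
  obtain ⟨g, hg⟩ : ∃ g : ℕ → ℕ, g = fun l => if l = r then g₀ r + sg else g₀ l := ⟨_, rfl⟩
  have hgl0 : ∀ l < r, g l = g₀ l := fun l hl => by rw [hg]; exact if_neg hl.ne
  have hgr0 : g r = g₀ r + sg := by rw [hg]; exact if_pos rfl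
  obtain ⟨sl, hsl⟩ : ∃ sl : ℕ → ℕ, sl = fun l => if l < r then 0 else sg := ⟨_, rfl⟩
  have hsll : ∀ l < r, sl l = 0 := fun l hl => by rw [hsl]; exact if_pos hl
  have hslr : sl r = sg := by rw [hsl]; exact if_neg (lt_irrefl r)
  have hgf : ∀ l < R, (f l w w - εm / 16) * J + sl l ≤ (g l : ℝ) := by
    intro l hl
    rcases hcas l hl with h | h
    · have h1 := (abs_le.1 (hgl l h)).1
      rw [hfl l h, hsll l h, hgl0 l h]
      push_cast
      linarith
    · have h1 := (abs_le.1 hgN).1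
      rw [h, hfr, hslr, hgr0]
      push_cast
      linarith
  have hglb : ∀ l < R, (β l - εm / 8) * J ≤ (g l : ℝ) := by
    intro l hl
    have h2 := hgf l hl
    rcases hcas l hl with h | h
    · rw [hβv, hlsl l h]
      rw [hsll l h] at h2
      push_cast at h2
      linarith
    · have h1 := (abs_le.1 hsg).1
      rw [hβv, h, hlsr]
      rw [h, hslr] at h2
      linarith
  have hgub : ∀ l < R, (g l : ℝ) ≤ (β l + εm / 8) * J := by
    intro l hl
    rcases hcas l hl with h | h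
    · have h1 := (abs_le.1 (hgl l h)).2
      rw [hβv, hfl l h, hlsl l h, hgl0 l h]
      linarith
    · have h1 := (abs_le.1 hgN).2
      have h2 := (abs_le.1 hsg).2
      rw [hβv, h, hfr, hlsr, hgr0]
      push_cast
      linarith
  obtain ⟨E, hE⟩ : ∃ E : ℕ → ℕ, E = fun n => if n = 0 then ⌊εt * J⌋₊ else ⌊eps (n - 1) * J⌋₊ :=
    ⟨_, rfl⟩
  have hE0 : E 0 = ⌊εt * J⌋₊ := by rw [hE]; simp
  have hEs : ∀ n, E (n + 1) = ⌊eps n * J⌋₊ := fun n => by rw [hE]; simp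
  have hEle : ∀ n, (E (n + 1) : ℝ) ≤ eps n * J := fun n => by
    rw [hEs]
    exact Nat.floor_le (mul_nonneg (hep0 n).le hJ0)
  have hEge : ∀ n, eps n * J - 1 ≤ (E (n + 1) : ℝ) := fun n => by
    rw [hEs]
    linarith [Nat.lt_floor_add_one (eps n * J)]
  obtain ⟨x, hx⟩ := rec_sum (fun l => E (l + 1) + κ) (fun j l => Kc l * dgp Kc j l) R
  have hxle : ∀ l < R, (x l : ℝ) ≤ 2 * eps l * J := by
    intro l
    induction l using Nat.strong_induction_on with
    | _ l ih =>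
      intro hl
      have h1 : (x l : ℝ) = E (l + 1) + κ + ∑ j ∈ range l, (x j : ℝ) * (Kc l * dgp Kc j l : ℕ) := by
        rw [hx l hl]
        push_cast
        ring
      have h2 : ∀ j ∈ range l, (x j : ℝ) * (Kc l * dgp Kc j l : ℕ) ≤
          eps l * J / (6 * (R + 1)) := by
        intro j hj
        rw [mem_range] at hj
        have h3 := ih j hj (hj.trans hl)
        have h4 := hloss j l (Kc l) hj hl.le (hKT j l hj hl)
        rw [le_div_iff₀ (by positivity)]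
        have h5 := mul_le_mul_of_nonneg_right h4 hJ0
        have h6 := mul_le_mul_of_nonneg_right h3
          (show (0 : ℝ) ≤ ((Kc l * dgp Kc j l : ℕ) : ℝ) * (6 * (R + 1)) by positivity)
        linarith
      have h3 := Finset.sum_le_sum h2
      rw [Finset.sum_const, card_range, nsmul_eq_mul] at h3
      have h4 : (l : ℝ) * (eps l * J / (6 * (R + 1))) ≤ eps l * J / 6 := by
        rw [mul_div_assoc', div_le_div_iff₀ (by positivity) (by norm_num)]
        have h5 : (l : ℝ) ≤ R + 1 := by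
          have : l ≤ R + 1 := by omega
          exact_mod_cast this
        have h6 : 0 ≤ eps l * J := mul_nonneg (hep0 l).le hJ0
        have := mul_le_mul_of_nonneg_right h5 h6
        linarith
      have h5 := hEle l
      have h6 := hJm l hl.le
      have h7 : 0 ≤ eps l * J := mul_nonneg (hep0 l).le hJ0
      rw [h1]
      linarith
  have hxg : ∀ l < R, x l ≤ g l := by
    intro l hl
    have h1 := hxle l hl
    have h2 := hglb l hl
    have h4 := heple l hl.le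
    have h6 := hβw l hl
    have h7 : (w - 1 / 32 * w) * J ≤ (β l - εm / 8) * J :=
      mul_le_mul_of_nonneg_right (by linarith) hJ0
    have h8 : eps l * J ≤ w / 32 * J := mul_le_mul_of_nonneg_right (by linarith) hJ0
    have h9 : 0 ≤ w * J := mul_nonneg hw.le hJ0
    have h10 : (x l : ℝ) ≤ g l := by linarith
    exact_mod_cast h10
  obtain ⟨q, hq⟩ : ∃ q : ℕ → ℕ, q = fun l => g l - x l := ⟨_, rfl⟩
  have hql : ∀ l < R, q l + x l = g l := fun l hl => by
    rw [hq]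
    have := hxg l hl
    show g l - x l + x l = g l
    omega
  have hgls : ∀ l < R, E (l + 1) + κ + gls Kc g q l = x l := by
    intro l hl
    rw [hx l hl]
    unfold gls
    congr 1
    refine Finset.sum_congr rfl fun j hj => ?_
    have := hql j ((mem_range.1 hj).trans hl)
    congr 1
    omega
  -- the bad event
  by_contra hcon
  have hbad : ∃ B : F.Ω → Prop, B = fun ω => A ω ∧
      ∀ b, NBx c (G (ptr F J ω)) g₀ ⌊w * J⌋₊ (F.t ω) (r + 1) b →
      |eval b (Dx (ptr F J ω))| ≤ 2 ^ ⌊η * J⌋₊ / 2 ^ N₀ := ⟨_, rfl⟩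
  obtain ⟨B₀, hB₀⟩ := hbad
  have hB₀A : Sub B₀ A := fun ω hω => by rw [hB₀] at hω; exact hω.1
  have hB₀P : Pe F.p B₀ < (1 - η') * Pe F.p A := by
    by_contra h
    push Not at h
    exact hcon ⟨B₀, hB₀A, h, fun ω hω => by rw [hB₀] at hω; exact hω.2⟩
  obtain ⟨A', hA'⟩ : ∃ A' : F.Ω → Prop, A' = fun ω => A ω ∧ ¬ B₀ ω := ⟨_, rfl⟩
  have hA'A : Sub A' A := fun ω hω => by rw [hA'] at hω; exact hω.1
  have hA'P : η' * Pe F.p A < Pe F.p A' := by
    have h1 := pe_split F.p hB₀A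
    rw [← hA'] at h1
    linarith
  have hPA0 : 0 ≤ Pe F.p A := Pe_nonneg F.isLaw A
  have hA'0 : 0 < Pe F.p A' := lt_of_le_of_lt (mul_nonneg hη'.le hPA0) hA'P
  have hlow : ∀ ω, A' ω → ∃ b, NBx c (G (ptr F J ω)) g₀ ⌊w * J⌋₊ (F.t ω) (r + 1) b ∧
      2 ^ ⌊η * J⌋₊ / 2 ^ N₀ ≤ |eval b (Dx (ptr F J ω))| := by
    intro ω hω
    rw [hA'] at hω
    by_contra h
    push Not at h
    refine hω.2 ?_
    rw [hB₀]
    exact ⟨hω.1, fun b hb => (h b hb).le⟩
  have hNB : ∀ B : F.Ω → Prop, Pe F.p A' ≤ N * Pe F.p B →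
      η' / ((N : ℝ) + 1) * Pe F.p A ≤ Pe F.p B := by
    intro B hB
    rw [div_mul_eq_mul_div, div_le_iff₀ (by positivity)]
    have h1 : 0 ≤ Pe F.p B := Pe_nonneg F.isLaw B
    nlinarith
  -- the numbers
  obtain ⟨e₁, he₁⟩ : ∃ e₁ : ℕ, e₁ = e + (⌊(vs + εh) * J⌋₊ + 1) + ⌊εh * J⌋₊ := ⟨_, rfl⟩
  obtain ⟨e', he'⟩ : ∃ e' : ℕ, e' = e₁ + E (R + 1) + (⌊(vs + εh) * J⌋₊ + 1) + ⌊2 * εh * J⌋₊ :=
    ⟨_, rfl⟩
  have hf2 : (⌊(vs + εh) * J⌋₊ : ℝ) ≤ (vs + εh) * J :=
    Nat.floor_le (mul_nonneg (by linarith) hJ0)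
  have hf3 : (⌊εh * J⌋₊ : ℝ) ≤ εh * J := Nat.floor_le (mul_nonneg hε0.le hJ0)
  have hf4 : (⌊2 * εh * J⌋₊ : ℝ) ≤ 2 * εh * J := Nat.floor_le (mul_nonneg (by linarith) hJ0)
  have hf6 : (⌊w * J⌋₊ : ℝ) ≤ w * J := Nat.floor_le (mul_nonneg hw.le hJ0)
  have hEi := hEle R
  rw [hepi] at hEi
  have hJi := hJm R le_rfl
  rw [hepi] at hJi
  have he₁r : (e₁ : ℝ) ≤ (vs + 3 * εh) * J + 1 := by
    rw [he₁]
    push_cast
    linarith
  have he'r : (e' : ℝ) ≤ (2 * vs + 7 * εh) * J + 2 := by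
    rw [he']
    push_cast
    linarith
  have hgd : ∀ l < R, ∀ l' ≤ l, g l' ≤ g l + (⌊(vs + εh) * J⌋₊ + 1) := by
    intro l hl l' hl'
    rcases hl'.lt_or_eq with h | h
    · have h1 := hβs l hl l' h
      have h2 := hgub l' (by omega)
      have h3 := hglb l hl
      have h6 : (β l' + εm / 8) * J ≤ (β l - εm / 8 + (vs + εh)) * J := by
        refine mul_le_mul_of_nonneg_right ?_ hJ0
        linarith
      have h7 : (g l' : ℝ) < (g l : ℝ) + ⌊(vs + εh) * J⌋₊ + 2 := by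
        linarith [Nat.lt_floor_add_one ((vs + εh) * J)]
      have h8 : g l' < g l + ⌊(vs + εh) * J⌋₊ + 2 := by exact_mod_cast h7
      omega
    · subst h
      omega
  have hRr : ∀ {G : ℕ → MvPolynomial (Option (Fin (m + 1))) ℝ} {t : ℝ}
      {b : Option (Fin (m + 1)) → ℝ}, NBx (cx' c r) G g ⌊w * J⌋₊ t R b →
      NBx (cx' c r) G g ⌊w * J⌋₊ t (r + 1) b := fun h => by rw [← hR]; exact h
  have hchX := ok_ext hKv hgl0 hgr0 hEN (hVc.sub hA'A) (hNc.sub hA'A)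
  rw [← hR] at hchX
  have hrP : ∀ ω : F.Ω, rP F (c r) sg (ptr (exF F (c r) sg) J ω) = ptr F J ω := by
    intro ω
    rw [exF_ptr, rP_eP]
  have hrL : ∀ ω : F.Ω, rL F (c r) sg (slam (exF F (c r) sg) ⌊w * J⌋₊ ω) =
      slam F ⌊w * J⌋₊ ω := by
    intro ω
    rw [exF_slam, rL_eL]
  have htN : Pool.RLV.TmN (exF F (c r) sg) N ⌊εt / 2 * J⌋₊ A' := by
    refine tmN_ext ?_ (c r)
    refine tmN_of htmJ ?_ hA'A hA'0 fun B _ hB => hNB B hB
    linarith [Nat.lt_floor_add_one (εt / 2 * J)]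
  refine hrel (F := exF F (c r) sg) (c := cx' c r) (a := ⌊w * J⌋₊) (w := ⌊w * J⌋₊) (A := A')
    (e := e) (e₁ := e₁) (e' := e') (e₀ := ⌊εt / 2 * J⌋₊)
    (y := ⌊η * J⌋₊) (N₀ := N₀) (g := g) (q := q) (E := E)
    (G := fun y => Gx sg r (G (rP F (c r) sg y))) (H := fun s => Gx sg r (H (rL F (c r) sg s)))
    (Dx := fun y => rl (c r) sg (Dx (rP F (c r) sg y)))
    (Dl := fun s => rl (c r) sg (Dl (rL F (c r) sg s)))
    hA'0 le_rfl hcX' (by rw [hKc]; exact hchX) (fun y => rl_deg (k1 _)) (fun s => rl_deg (k2 _))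
    (fun y => by rw [hR]; exact rl_dep hcI (k3 _)) (fun s => by rw [hR]; exact rl_dep hcI (k4 _))
    (fun ω hω => ?_) (fun ω hω b hb => ?_) (fun ω hω => ?_) htN ?_ ?_ ?_ ?_ ?_ ?_ ?_ ?_ ?_
    ?_ ?_
  · rw [hrP ω, eval_rl, dn_bt]
    exact k5 ω (hA'A ω hω)
  · rw [hrP ω] at hb ⊢
    rw [hrL ω, eval_rl, eval_rl]
    exact k6 ω (hA'A ω hω) _ (nbx_dnw hcI (hVc.depG _) hgl0 hgr0 (hRr hb))
  · obtain ⟨b, hb, hbl⟩ := hlow ω hω
    refine ⟨upc (c r) sg b, ?_, ?_⟩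
    · rw [hrP ω, hR]
      exact nbx_upc hgl0 hgr0 hb
    · rw [hrP ω, eval_rl, dn_upc]
      exact hbl
  · -- `E 0`
    rw [hE0]
    refine Nat.le_floor ?_
    push_cast
    have : (⌊εt / 2 * J⌋₊ : ℝ) ≤ εt / 2 * J := Nat.floor_le (by positivity)
    linarith
  · intro l hl
    rw [hEs]
    refine Nat.le_floor ?_
    push_cast
    rw [hE0]
    have h1 : (⌊εt * J⌋₊ : ℝ) ≤ εt * J := Nat.floor_le (by positivity)
    have h2 : (κ : ℝ) * ⌊εt * J⌋₊ ≤ κ * (εt * J) := mul_le_mul_of_nonneg_left h1 (by linarith)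
    have h3 := mul_le_mul_of_nonneg_right hεtκ hJ0
    have h4 : εm * J ≤ eps l * J := mul_le_mul_of_nonneg_right (hεml l (by omega)) hJ0
    have h5 : 0 ≤ εm * J := by positivity
    linarith
  · intro l hl
    rw [hEs (l + 1)]
    refine Nat.le_floor ?_
    push_cast
    have h1 : ((V : ℝ) + 4) ^ (D * dgp Kc l R + 1) ≤ Zf V D R (T l) := by
      have h2 : (V + 4) ^ (D * dgp Kc l R + 1) ≤ Zf V D R (T l) := by
        unfold Zf
        refine le_trans (Nat.pow_le_pow_right (by omega) ?_) (Nat.le_add_right _ _)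
        exact Nat.add_le_add_right (Nat.mul_le_mul_left _ (hdg l R hl le_rfl)) _
      exact_mod_cast h2
    calc ((V : ℝ) + 4) ^ (D * dgp Kc l R + 1) * (E (l + 1) : ℝ) ≤
          Zf V D R (T l) * (eps l * J) :=
          mul_le_mul h1 (hEle l) (Nat.cast_nonneg _) (Nat.cast_nonneg _)
      _ = eps l * Zf V D R (T l) * J := by ring
      _ ≤ _ := mul_le_mul_of_nonneg_right (hepm l (l + 1) (by omega) (by omega)) hJ0
  · intro l hl
    have := hql l hl
    omega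
  · intro l hl
    have h1 := hql l hl
    have h2 := hgls l hl
    omega
  · have h1 : ∑ j ∈ range R, (g j - q j) * (D * dgp Kc j R) =
        ∑ j ∈ range R, x j * (D * dgp Kc j R) := Finset.sum_congr rfl fun j hj => by
      have := hql j (mem_range.1 hj)
      congr 1
      omega
    rw [h1]
    refine Nat.le_floor ?_
    rw [Nat.cast_add, Nat.cast_add, Nat.cast_sum]
    have h2 : ∀ j ∈ range R, ((x j * (D * dgp Kc j R) : ℕ) : ℝ) ≤ εh * J / (6 * (R + 1)) := by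
      intro j hj
      rw [mem_range] at hj
      have h3 := hxle j hj
      have h4 := hloss j R D hj le_rfl (hDT j)
      rw [hepi] at h4
      rw [le_div_iff₀ (by positivity), Nat.cast_mul]
      have h5 := mul_le_mul_of_nonneg_right h4 hJ0
      have h6 := mul_le_mul_of_nonneg_right h3
        (show (0 : ℝ) ≤ ((D * dgp Kc j R : ℕ) : ℝ) * (6 * (R + 1)) by positivity)
      linarith
    have h3 := Finset.sum_le_sum h2
    rw [Finset.sum_const, card_range, nsmul_eq_mul] at h3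
    have h4 : (R : ℝ) * (εh * J / (6 * (R + 1))) ≤ εh * J / 6 := by
      rw [mul_div_assoc', div_le_div_iff₀ (by positivity) (by norm_num)]
      have h5 : (R : ℝ) ≤ R + 1 := by linarith
      have h6 : 0 ≤ εh * J := mul_nonneg hε0.le hJ0
      have := mul_le_mul_of_nonneg_right h5 h6
      linarith
    have h5 : εh * J ≤ η / 8 * J := mul_le_mul_of_nonneg_right hε1 hJ0
    have h6 : 0 ≤ εh * J := mul_nonneg hε0.le hJ0
    linarith
  · intro l hl l' hl'
    have h1 : nlp g l' l ≤ ⌊(vs + εh) * J⌋₊ + 1 := by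
      unfold nlp
      have : (Finset.Icc l' l).sup g ≤ g l + (⌊(vs + εh) * J⌋₊ + 1) :=
        Finset.sup_le fun j hj => hgd l hl j (Finset.mem_Icc.1 hj).2
      omega
    have h2 := hgls l hl
    have h3 := hxle l hl
    have h4 := hEge l
    have h5 : eps l * 4 ≤ εh := by
      have h6 := hepm l R hl le_rfl
      rw [hepi] at h6
      refine le_trans (mul_le_mul_of_nonneg_left ?_ (hep0 l).le) h6
      have : 4 ≤ Zf V D R (T l) := by
        unfold Zf
        have h7 : (V + 4) ^ 1 ≤ (V + 4) ^ (D * T l ^ R + 1) :=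
          Nat.pow_le_pow_right (by omega) (by omega)
        rw [pow_one] at h7
        omega
      exact_mod_cast this
    have h6 := mul_le_mul_of_nonneg_right h5 hJ0
    have h7 := hJm l hl.le
    have h8 : κ + gls Kc g q l ≤ ⌊εh * J⌋₊ := by
      refine Nat.le_floor ?_
      have h9 : (E (l + 1) : ℝ) + (κ + gls Kc g q l : ℕ) = x l := by
        rw [← h2]
        push_cast
        ring
      linarith
    rw [he₁]
    omega
  · intro l hl l' hl'
    have h1 := hgd l hl l' hl'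
    have h2 := hql l hl
    have h3 := hql l' (by omega)
    have h4 : x l ≤ ⌊2 * εh * J⌋₊ := by
      refine Nat.le_floor ((hxle l hl).trans ?_)
      exact mul_le_mul_of_nonneg_right (by linarith [heple l hl.le]) hJ0
    rw [he']
    omega
  · intro l hl
    have h1 := hql l hl
    have h2 := hgub l hl
    have h3 : (q l : ℝ) ≤ g l := by
      have : q l ≤ g l := by omega
      exact_mod_cast this
    have h4 := hσl l hl
    have h5 : (q l : ℝ) + e₁ + 7 * E (R + 1) ≤ J := by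
      have h6 : (β l + εm / 8) * J + ((vs + 3 * εh) * J + 1) + 7 * (εh * J) ≤ 1 * J := by
        have h7 : (β l + εm / 8 + (vs + 3 * εh) + εh + 7 * εh) * J ≤ 1 * J := by
          refine mul_le_mul_of_nonneg_right ?_ hJ0
          linarith
        linarith
      linarith
    exact_mod_cast h5
  · have h1 : (⌊w * J⌋₊ : ℝ) + 4 * E (R + 1) ≤ J := by
      have h2 : (w + 4 * εh) * J ≤ 1 * J := mul_le_mul_of_nonneg_right (by linarith) hJ0
      linarith
    exact_mod_cast h1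
  · intro l hl μ hμ1 hμ2 B hB hPB hch
    have hEl := hEge l
    have hJl := hJm l hl.le
    have hel : εm ≤ eps l := hεml l (by omega)
    have hμr1 : eps l * J - 1 ≤ (μ : ℝ) := hEl.trans (by exact_mod_cast hμ1)
    have hμr2 : (μ : ℝ) ≤ εh * J := (show (μ : ℝ) ≤ E (R + 1) by exact_mod_cast hμ2).trans hEi
    have hμ0 : (0 : ℝ) < μ := by
      have : 0 ≤ eps l * J := mul_nonneg (hep0 l).le hJ0
      linarith
    obtain ⟨t, ht⟩ : ∃ t : ℝ, t = 4 * μ / (J * o') := ⟨_, rfl⟩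
    have hJo : 0 < J * o' := mul_pos hJp ho'0
    have ht' : t * (J * o') = 4 * μ := by rw [ht]; field_simp
    have ht0 : 0 < t := by rw [ht]; positivity
    have ht1 : t ≤ 1 := by
      rw [ht, div_le_one hJo]
      have h1 : εh * J ≤ o' / 8 * J := mul_le_mul_of_nonneg_right hε2 hJ0
      have h2 : 0 ≤ o' * J := by positivity
      linarith
    obtain ⟨k, hk1, hk2⟩ := exists_nat_pow_near_of_lt_one ht0 ht1
      (show (0 : ℝ) < 1 / 2 by norm_num) (by norm_num)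
    have hkm' : k < km := by
      by_contra h
      push Not at h
      have h1 : (1 / 2 : ℝ) ^ k ≤ (1 / 2) ^ km :=
        pow_le_pow_of_le_one (by norm_num) (by norm_num) h
      have h2 : 2 * εm / o' ≤ t := by
        rw [ht, div_le_div_iff₀ ho'0 hJo]
        have h3 : εm * J ≤ eps l * J := mul_le_mul_of_nonneg_right hel hJ0
        have h4 : 2 * (εm * J) ≤ 4 * μ := by linarith
        calc 2 * εm * (J * o') = 2 * (εm * J) * o' := by ring
          _ ≤ 4 * μ * o' := mul_le_mul_of_nonneg_right h4 ho'0.le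
      linarith
    obtain ⟨ok, hokd⟩ : ∃ ok : ℝ, ok = o' * (1 / 2) ^ k := ⟨_, rfl⟩
    have hk3 : 4 * (μ : ℝ) ≤ ok * J := by
      have h1 := mul_le_mul_of_nonneg_right hk2 hJo.le
      rw [ht'] at h1
      rw [hokd]
      linarith
    have hk4 : ok * J ≤ 8 * μ := by
      have h1 := mul_le_mul_of_nonneg_right hk1.le hJo.le
      rw [ht', pow_succ] at h1
      rw [hokd]
      linarith
    have h1 := hbk k l hl
    have h2 := hw'1 k
    have h3 := ha'1 k
    have h4 := ha'2 k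
    have h5 := hw'2 k
    rw [← hokd] at h1 h2 h3 h4 h5
    have hok0 : 0 < ok := by rw [hokd]; positivity
    have hql1 := hql l hl
    have hgfl := hgf l hl
    have hxl := hxle l hl
    have hqr : (q l : ℝ) = g l - x l := by
      have : (q l : ℝ) + x l = g l := by exact_mod_cast hql1
      linarith
    -- the inequalities
    have i1 : ⌊w * J⌋₊ + 4 * μ ≤ ⌊(a' k : ℝ) * J⌋₊ := by
      refine Nat.le_floor ?_
      push_cast
      have : (w + 3 / 2 * ok) * J ≤ a' k * J := mul_le_mul_of_nonneg_right h3.le hJ0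
      linarith
    have i2 : ⌊w * J⌋₊ + 4 * μ ≤ ⌊(w' k : ℝ) * J⌋₊ := by
      refine Nat.le_floor ?_
      push_cast
      have : (w + ok) * J ≤ w' k * J := mul_le_mul_of_nonneg_right h2.le hJ0
      linarith
    have i3 : e' ≤ ⌊θ * w * J⌋₊ := by
      refine Nat.le_floor (he'r.trans ?_)
      have h6 : (2 * vs + 7 * εh + 1 * εh) * J ≤ θ * w * J := by
        refine mul_le_mul_of_nonneg_right ?_ hJ0
        linarith
      linarith
    have i4 : ∀ l' ≤ l, (if l' < l then q l' + 4 * μ else q l + E (l + 1) + V * μ) ≤ J := by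
      intro l' hl'
      have h6 : ∀ l₁ < R, (q l₁ : ℝ) ≤ (1 - σ + εm / 8) * J := by
        intro l₁ hl₁
        have h7 := hσl l₁ hl₁
        have h8 := hql l₁ hl₁
        have h9 : (q l₁ : ℝ) ≤ g l₁ := by
          have : q l₁ ≤ g l₁ := by omega
          exact_mod_cast this
        have h10 := hgub l₁ hl₁
        have h11 : (β l₁ + εm / 8) * J ≤ (1 - σ + εm / 8) * J := by
          refine mul_le_mul_of_nonneg_right ?_ hJ0
          linarith
        linarith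
      have h7 : (V + 10) * εh * J ≤ σ / 8 * J := by
        refine mul_le_mul_of_nonneg_right ?_ hJ0
        linarith
      have h8 : (V : ℝ) * μ ≤ V * (εh * J) := mul_le_mul_of_nonneg_left hμr2 hV0'
      have h9 : 0 ≤ V * (εh * J) := by positivity
      have h10 : (E (l + 1) : ℝ) ≤ εh * J :=
        (hEle l).trans (mul_le_mul_of_nonneg_right (heple l hl.le) hJ0)
      have hσJ : 0 ≤ σ * J := by positivity
      split_ifs with h
      · have h11 := h6 l' (by omega)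
        have h12 : (q l' : ℝ) + 4 * μ ≤ J := by linarith
        exact_mod_cast h12
      · have h11 := h6 l hl
        have h12 : (q l : ℝ) + E (l + 1) + V * μ ≤ J := by linarith
        exact_mod_cast h12
    have hb0 : 0 ≤ f l (a' k) (w' k) := by
      have h6 : (0 : ℝ) ≤ w' k := by linarith
      have h7 : (w' k : ℝ) ≤ a' k := by linarith
      have h8 : (a' k : ℝ) ≤ 1 := by linarith [(hok k).2, hokd]
      exact (by linarith : (0 : ℝ) ≤ a' k).trans (hflow l hl _ _ h6 h7 h8)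
    have i5 : ⌊(f l (a' k) (w' k) + eps l) * J⌋₊ + (⌊w * J⌋₊ + 4 * μ) + sl l ≤
        q l + E (l + 1) + V * μ + ⌊(a' k : ℝ) * J⌋₊ := by
      have h6 : (⌊(f l (a' k) (w' k) + eps l) * J⌋₊ : ℝ) ≤ (f l (a' k) (w' k) + eps l) * J :=
        Nat.floor_le (mul_nonneg (add_nonneg hb0 (hep0 l).le) hJ0)
      have h7 : (f l (a' k) (w' k) + eps l) * J ≤ (f l w w + V₀ * (2 * ok) + eps l) * J := by
        refine mul_le_mul_of_nonneg_right ?_ hJ0
        linarith
      have h8 : V₀ * (ok * J) ≤ V₀ * (8 * μ) := mul_le_mul_of_nonneg_left hk4 hV₀0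
      have h9 : (16 * V₀ + 4) * (μ : ℝ) ≤ V * μ := mul_le_mul_of_nonneg_right hVr hμ0.le
      have h10 := Nat.lt_floor_add_one ((a' k : ℝ) * J)
      have h11 : (w + 3 / 2 * ok) * J ≤ a' k * J := mul_le_mul_of_nonneg_right h3.le hJ0
      have h12 : εm * J ≤ eps l * J := mul_le_mul_of_nonneg_right hel hJ0
      have h13 : ((⌊(f l (a' k) (w' k) + eps l) * J⌋₊ + (⌊w * J⌋₊ + 4 * μ) + sl l : ℕ) : ℝ) ≤
          ((q l + E (l + 1) + V * μ + ⌊(a' k : ℝ) * J⌋₊ : ℕ) : ℝ) := by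
        push_cast
        rw [hqr]
        linarith
      exact_mod_cast h13
    rcases hcas l hl with hlr | hlr
    · rw [hsll l hlr] at i5
      refine hnoJ k hkm' l hl B (fun ω hω => hA'A ω (hB ω hω)) (hNB B hPB) _ _ _ _ le_rfl i1 i2
        (fun _ => i3) i4 ?_ (chn_lt (by omega) hch)
      show _ ≤ (if l < l then q l + 4 * μ else q l + E (l + 1) + V * μ) + _
      rw [if_neg (lt_irrefl l)]
      omega
    · subst hlr
      rw [hslr] at i5
      have i6 : sg ≤ q l + E (l + 1) + V * μ := by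
        have h6 := hflow l hl w w hw.le le_rfl hw1.le
        have h7 : (w - εm / 16) * J ≤ (f l w w - εm / 16) * J :=
          mul_le_mul_of_nonneg_right (by linarith) hJ0
        have h8 : eps l * J ≤ w / 32 * J :=
          mul_le_mul_of_nonneg_right (by linarith [heple l hl.le]) hJ0
        have h9 : 0 ≤ w * J := mul_nonneg hw.le hJ0
        have h10 : εm * J ≤ w / 32 * J := mul_le_mul_of_nonneg_right (by linarith) hJ0
        rw [hslr] at hgfl
        have h11 : (sg : ℝ) ≤ q l := by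
          rw [hqr]
          linarith
        have h12 : sg ≤ q l := by exact_mod_cast h11
        omega
      refine hnoJ k hkm' l hl B (fun ω hω => hA'A ω (hB ω hω)) (hNB B hPB) _ _ _
        (fun l' => if l' < l then q l' + 4 * μ else q l + E (l + 1) + V * μ - sg) le_rfl i1 i2
        (fun h => absurd h (lt_irrefl l)) (fun l' hl' => ?_) ?_
        (chn_top hch (fun l' hl' => ?_) ?_ le_rfl)
      · refine le_trans ?_ (i4 l' hl')
        show (if l' < l then q l' + 4 * μ else q l + E (l + 1) + V * μ - sg) ≤ _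
        split_ifs <;> omega
      · show _ ≤ (if l < l then q l + 4 * μ else q l + E (l + 1) + V * μ - sg) + _
        rw [if_neg (lt_irrefl l)]
        omega
      · show (if l' < l then q l' + 4 * μ else q l + E (l + 1) + V * μ - sg) =
          if l' < l then q l' + 4 * μ else q l + E (l + 1) + V * μ
        rw [if_pos hl', if_pos hl']
      · show (if l < l then q l + 4 * μ else q l + E (l + 1) + V * μ - sg) + sg =
          if l < l then q l + 4 * μ else q l + E (l + 1) + V * μ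
        rw [if_neg (lt_irrefl l), if_neg (lt_irrefl l)]
        omega

/-- **No relation with a steep target in a class.** The coordinates `c l`, `l < r`, have the
thresholds `bet P c l`, the target `c r` has the threshold `Pt` and slopes at most `2 ^ sg`; the
degrees `K` are before the errors. -/
theorem relvN (hP : ThrOf (chsys m θ) S P) (hθ : 0 < θ) (hS : TmH S) {c : ℕ → Fin m} {r : ℕ}
    (hc : Set.InjOn c (Set.Iio (r + 1))) (hPt : ThrOf (tgs (c r)) S (fun _ => Pt)) {w s vs : ℝ}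
    (hw : 0 < w) (hw1 : w < 1) (hs : 0 ≤ s) (hup : ∀ l < r, Up1 (bet P c l) w w)
    (hupt : Up1 Pt w w) (hvis : ∀ l < r, bet P c l w w + θ * w < 1) (hvs : 0 ≤ vs)
    (hvsθ : 2 * vs < θ * w) (hsrt : ∀ i < r, ∀ l < i, bet P c l w w ≤ bet P c i w w + vs)
    (hsN : ∀ l < r, bet P c l w w ≤ Pt w w + s + vs) (hroom : Pt w w + s + vs < 1)
    (D K : ℕ) {η η' κ₁ : ℝ} (hη : 0 < η) (hη' : 0 < η') (hκ₁ : 0 < κ₁) : ∃ φ : ℝ, 0 < φ ∧
    Bas S (fun J F A => ∀ (B₀ : F.Ω → Prop) (e EN sg : ℕ) (g Kv : ℕ → ℕ)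
      (G : PtT F → ℕ → MvPolynomial (Option (Fin m)) ℝ)
      (H : LnT F → ℕ → MvPolynomial (Option (Fin m)) ℝ), Sub B₀ A →
      κ₁ * Pe F.p A ≤ Pe F.p B₀ →
      (e : ℝ) ≤ φ * J → |(sg : ℝ) - s * J| ≤ φ * J → (∀ i < r + 1, Kv i ≤ K) →
      (∀ l < r, |(g l : ℝ) - bet P c l w w * J| ≤ φ * J) → |(g r : ℝ) - Pt w w * J| ≤ φ * J →
      (∀ l < r, EN + nlp g l r ≤ sg + e) →
      ChOK F c r Kv ⌊w * J⌋₊ ⌊w * J⌋₊ e g B₀ G H →
      ChOK F c (r + 1) Kv ⌊w * J⌋₊ ⌊w * J⌋₊ EN g B₀ G H →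
      ∀ (Dx : PtT F → MvPolynomial (Option (Fin m)) ℝ)
        (Dl : LnT F → MvPolynomial (Option (Fin m)) ℝ) (N₀ : ℕ),
      (∀ y, (Dx y).totalDegree ≤ D) → (∀ s, (Dl s).totalDegree ≤ D) →
      (∀ y, DepC c (r + 1) (Dx y)) → (∀ s, DepC c (r + 1) (Dl s)) →
      (∀ ω, B₀ ω → |eval (bt F ω) (Dx (ptr F J ω))| ≤ 1 / 2 ^ N₀) →
      (∀ ω, B₀ ω → ∀ b, NBx c (G (ptr F J ω)) g ⌊w * J⌋₊ (F.t ω) (r + 1) b →
        |eval b (Dx (ptr F J ω)) - eval b (Dl (slam F ⌊w * J⌋₊ ω))| ≤ 1 / 2 ^ N₀) →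
      ∃ B : F.Ω → Prop, Sub B B₀ ∧ (1 - η') * Pe F.p B₀ ≤ Pe F.p B ∧ ∀ ω, B ω →
        ∀ b, NBx c (G (ptr F J ω)) g ⌊w * J⌋₊ (F.t ω) (r + 1) b →
          |eval b (Dx (ptr F J ω))| ≤ 2 ^ ⌊η * J⌋₊ / 2 ^ N₀) := by
  obtain ⟨φ, hφ, h⟩ := relvN_self hP hθ hS hc hPt hw hw1 hs hup hupt hvis hvs hvsθ hsrt hsN hroom
    D K hη hη'
  refine ⟨φ, hφ, Bas.mono 0 (bas_ev h hκ₁) ?_⟩
  intro J _ F A hA B₀ e EN sg g Kv G H hB₀ hPB₀
  exact hA B₀ hB₀ hPB₀ e EN sg g Kv G H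

end Pool.RLX
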