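import Pool.Agent.H95.GN.Rle

/-!
# Relations in a family: the target level with an exponent of its own

`rel_top` is the last step of `rel_core` (helper95) with two exponents: the coordinates `c l`,
`l < j`, have side exponents `e`, `e'`, the last coordinate `c j` has `eN`, `eN'`.
`relvN_fam` is the form over chains of two-sided labels.
-/

set_option autoImplicit false

namespace Pool.RLV

open Finset Real MvPolynomial
open Pool.Agent.H49.Ent Pool.Agent.H32.Dense Pool.STK Pool.KA Pool.KSAT Pool.K2S Pool.PB Pool.S6C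
open Pool.GEN
open Pool.CHT (dgp dgp_self dgp_succ gls nbx_grow)

/-- **No relations at the target level**, if there are no better labels: the last coordinate has
exponents of its own. -/
theorem rel_top (V : ℕ) (K : ℕ → ℕ) (j : ℕ) : ∀ Kd L : ℕ, ∃ κ N Kn : ℕ, 1 ≤ κ ∧
    ∀ {m J : ℕ} {F : Fam m J} {c : ℕ → Fin m} {a w e e' eN eN' e₀ : ℕ} {q p E : ℕ → ℕ}
      {A : F.Ω → Prop} {G : PtT F → ℕ → MvPolynomial (Option (Fin m)) ℝ}
      {H : LnT F → ℕ → MvPolynomial (Option (Fin m)) ℝ}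
      {Dx : PtT F → MvPolynomial (Option (Fin m)) ℝ}
      {Dl : LnT F → MvPolynomial (Option (Fin m)) ℝ} {M : F.Ω → ℝ}, 0 < Pe F.p A → w ≤ a →
      CBx F c j K a w e q p A G H → CBx F c (j + 1) K a w eN q p A G H →
      Rel F c (j + 1) Kd a w q (E (j + 2)) L A G Dx Dl M →
      TmN F N e₀ A → e₀ + 1 ≤ E 0 → (∀ l < j + 1, p l = q l + E (l + 1)) →
      (∀ l ≤ j + 1, κ * E 0 ≤ E (l + 1)) →
      (∀ l < j + 1, (V + 4) ^ (Kd * dgp K l (j + 1) + 1) * E (l + 1) ≤ E (l + 2)) →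
      (∀ l < j, q l + e + 7 * E (j + 2) ≤ J) → (∀ l ≤ j, q l + eN + 7 * E (j + 2) ≤ J) →
      w + 4 * E (j + 2) ≤ J →
      (∀ l < j, ∀ l' ≤ l, q l' + e + E (j + 2) ≤ q l + e') →
      (∀ l' ≤ j, q l' + eN + E (j + 2) ≤ q j + eN') →
      (∀ l < j, ∀ μ, E (l + 1) ≤ μ → μ ≤ E (j + 2) → ∀ B : F.Ω → Prop, Sub B A →
        Pe F.p A ≤ N * Pe F.p B → ¬ ChN F c (l + 1) (fun _ => Kn) (a + 4 * μ) (w + 4 * μ) e'
          (fun l' => if l' < l then q l' + 4 * μ else p l + V * μ) B) →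
      (∀ μ, E (j + 1) ≤ μ → μ ≤ E (j + 2) → ∀ B : F.Ω → Prop, Sub B A →
        Pe F.p A ≤ N * Pe F.p B → ¬ ChN F c (j + 1) (fun _ => Kn) (a + 4 * μ) (w + 4 * μ) eN'
          (fun l' => if l' < j then q l' + 4 * μ else p j + V * μ) B) → False := by
  classical
  intro Kd L
  obtain ⟨Λ, hΛ⟩ : ∃ Λ, Λ = V + 4 := ⟨_, rfl⟩
  obtain ⟨κc, hcof⟩ := cof_step Kd
  obtain ⟨κd, hκd⟩ := pow_unbounded_of_one_lt ((Kd : ℝ) + 1) (one_lt_two (α := ℝ))
  obtain ⟨C₁, hC₁, htop⟩ := ntop Kd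
  obtain ⟨κ₁, hκ₁⟩ := pow_unbounded_of_one_lt C₁ (one_lt_two (α := ℝ))
  obtain ⟨κn, Nn, Knn, hκn, hnew⟩ := rel_new j Kd Λ K
  obtain ⟨κi, Ni, Kni, hκi, hind⟩ := rel_core V K j (max (K j) 1 * Kd) (L + κc + κd)
  obtain ⟨n₀, hn₀⟩ : ∃ n₀, n₀ = 2 * (Kd + 1) := ⟨_, rfl⟩
  refine ⟨κi + 3 * κ₁ + 2 * κn + 1, n₀ * (Ni + Nn + 2), Kni + Knn, by omega, ?_⟩
  intro m J F c a w e e' eN eN' e₀ q p E A G H Dx Dl M hA hwa hLV hL hR hT hE0 hpE hEt hE hJ hJN
    hwJ hsl hslN hno hnoN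
  obtain ⟨κ, hκ⟩ : ∃ κ, κ = κi + 3 * κ₁ + 2 * κn + 1 := ⟨_, rfl⟩
  rw [← hκ] at hEt
  obtain ⟨h, hhE⟩ : ∃ h, h = E (j + 1 + 1) := ⟨_, rfl⟩
  rw [← hhE] at hR hJ hJN hwJ hsl hslN
  simp only [← hhE] at hno hnoN
  have hκpos : 1 ≤ κ := by omega
  have hEκ : ∀ l ≤ j, κ * (e₀ + 1) ≤ E (l + 1) := fun l hl =>
    (Nat.mul_le_mul_left κ hE0).trans (hEt l (by omega))
  have hEj : Λ ^ (Kd + 1) * E (j + 1) ≤ h := by
    have h1 := hE j (Nat.lt_succ_self j)
    rw [Pool.CHT.dgp_self, mul_one, ← hΛ] at h1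
    rw [hhE]
    exact h1
  have hκE : κ ≤ E (j + 1) := by
    have h1 := hEκ j le_rfl
    have h2 : κ ≤ κ * (e₀ + 1) := Nat.le_mul_of_pos_right _ (Nat.succ_pos e₀)
    omega
  -- the ladder
  obtain ⟨θ, hθ⟩ : ∃ θ : ℕ → ℕ, θ = fun k => Λ ^ (Kd + 1 - k) * E (j + 1) := ⟨_, rfl⟩
  have hΛ1 : 1 ≤ Λ := by omega
  have hθE : ∀ k, E (j + 1) ≤ θ k := fun k => by
    rw [hθ]
    exact Nat.le_mul_of_pos_left _ (Nat.pos_of_ne_zero (by positivity))
  have hθh : ∀ k, θ k ≤ h := fun k => by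
    rw [hθ]
    refine le_trans ?_ hEj
    exact Nat.mul_le_mul_right _ (Nat.pow_le_pow_right hΛ1 (Nat.sub_le _ _))
  have hθs : ∀ k ≤ Kd, θ k = Λ * θ (k + 1) := fun k hk => by
    rw [hθ]
    simp only
    rw [← mul_assoc, ← pow_succ']
    congr 2
    omega
  obtain ⟨P, hP⟩ : ∃ P : ℕ → F.Ω → Prop, P = fun k ω => if k < Kd + 1 then
      (∀ k ≤ Kd, |eval (bt F ω) ((pderiv (some (c j)))^[k] (Dx (ptr F J ω)))| ≤
        M ω / 2 ^ E (j + 1) * (2 ^ q j) ^ k) ∧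
      (∃ b, NBx c (G (ptr F J ω)) q a (F.t ω) (j + 1) b ∧ M ω ≤ 2 ^ L * ((Kd + 1) *
        |eval b (cof (some (c j)) (1 / 2 ^ q j) (G (ptr F J ω) j) (Dx (ptr F J ω)) k)|)) else
      (|eval (bt F ω) ((pderiv (some (c j)))^[k - (Kd + 1)] (Dx (ptr F J ω)))| ≤
        M ω / 2 ^ θ (k - (Kd + 1)) * (2 ^ q j) ^ (k - (Kd + 1))) ∧
      (M ω / 2 ^ θ (k - (Kd + 1) + 1) * (2 ^ q j) ^ (k - (Kd + 1) + 1) ≤
        |eval (bt F ω) ((pderiv (some (c j)))^[k - (Kd + 1) + 1] (Dx (ptr F J ω)))|) :=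
    ⟨_, rfl⟩
  have hcov : ∀ ω, A ω → ∃ k < n₀, P k ω := by
    intro ω hω
    have hM := hR.M0 ω hω
    by_cases hc1 : ∀ k ≤ Kd + 1, |eval (bt F ω) ((pderiv (some (c j)))^[k] (Dx (ptr F J ω)))| ≤
        M ω / 2 ^ θ k * (2 ^ q j) ^ k
    · obtain ⟨b, hb, hbl⟩ := hR.low ω hω
      obtain ⟨k, hk, hkb⟩ := cof_low (hR.degx (ptr F J ω)) hb
      refine ⟨k, by omega, ?_⟩
      rw [hP]
      simp only
      rw [if_pos hk]
      refine ⟨fun k' hk' => (hc1 k' (by omega)).trans ?_, b, hb, hbl.trans ?_⟩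
      · refine mul_le_mul_of_nonneg_right ?_ (by positivity)
        exact div_le_div_of_nonneg_left hM.le (by positivity)
          (pow_le_pow_right₀ (by norm_num) (hθE k'))
      · exact mul_le_mul_of_nonneg_left hkb (by positivity)
    · push Not at hc1
      obtain ⟨k₀, hk₀⟩ : ∃ k₀, k₀ = Nat.find hc1 := ⟨_, rfl⟩
      have hsp := Nat.find_spec hc1
      rw [← hk₀] at hsp
      have hmin : ∀ k < k₀, |eval (bt F ω) ((pderiv (some (c j)))^[k] (Dx (ptr F J ω)))| ≤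
          M ω / 2 ^ θ k * (2 ^ q j) ^ k := by
        intro k hk
        by_contra hcon
        push Not at hcon
        rw [hk₀] at hk
        exact Nat.find_min hc1 hk ⟨by omega, hcon⟩
      have hk0 : k₀ ≠ 0 := by
        intro h0
        have h1 := hsp.2
        rw [h0, pow_zero, mul_one, Function.iterate_zero, id] at h1
        have h2 := hR.own ω hω
        have h3 : M ω / 2 ^ h ≤ M ω / 2 ^ θ 0 :=
          div_le_div_of_nonneg_left hM.le (by positivity)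
            (pow_le_pow_right₀ (by norm_num) (hθh 0))
        linarith only [h1, h2, h3]
      obtain ⟨k, hk⟩ : ∃ k, k₀ = k + 1 := ⟨k₀ - 1, by omega⟩
      refine ⟨Kd + 1 + k, by omega, ?_⟩
      rw [hP]
      simp only
      rw [if_neg (by omega), Nat.add_sub_cancel_left]
      refine ⟨hmin k (by omega), ?_⟩
      rw [← hk]
      exact hsp.2.le
  obtain ⟨k, hk, hkP⟩ := pgn F.isLaw hA hcov
  obtain ⟨B, hB⟩ : ∃ B : F.Ω → Prop, B = fun ω => A ω ∧ P k ω := ⟨_, rfl⟩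
  have hBω : ∀ ω, B ω → A ω ∧ P k ω := fun ω hω => by rw [hB] at hω; exact hω
  have hBA : Sub B A := fun ω hω => (hBω ω hω).1
  rw [← hB] at hkP
  have hBpos : 0 < Pe F.p B := by
    have : (0 : ℝ) ≤ n₀ := Nat.cast_nonneg _
    by_contra hcon
    push Not at hcon
    nlinarith only [hkP, hA, hcon, this]
  have hNsub : ∀ {N' : ℕ}, N' ≤ Ni + Nn + 2 → ∀ B' : F.Ω → Prop, Sub B' B →
      Pe F.p B ≤ N' * Pe F.p B' → Pe F.p A ≤ (n₀ * (Ni + Nn + 2) : ℕ) * Pe F.p B' := by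
    intro N' hN' B' _ hP'
    have h1 : (N' : ℝ) ≤ (Ni + Nn + 2 : ℕ) := by exact_mod_cast hN'
    have h2 : 0 ≤ Pe F.p B' := Pe_nonneg F.isLaw B'
    push_cast at h1 ⊢
    calc Pe F.p A ≤ n₀ * Pe F.p B := hkP
      _ ≤ n₀ * (N' * Pe F.p B') := mul_le_mul_of_nonneg_left hP' (Nat.cast_nonneg _)
      _ ≤ n₀ * ((Ni + Nn + 2) * Pe F.p B') := mul_le_mul_of_nonneg_left
          (mul_le_mul_of_nonneg_right h1 h2) (Nat.cast_nonneg _)
      _ = _ := by ring
  have hT' : TmN F (Ni + Nn + 2) e₀ B := hT.sub hBA hkP le_rfl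
  rcases Nat.lt_or_ge k (Kd + 1) with hk' | hk'
  · -- the coefficient step
    have hPk : ∀ ω, B ω → (∀ k ≤ Kd, |eval (bt F ω) ((pderiv (some (c j)))^[k]
          (Dx (ptr F J ω)))| ≤ M ω / 2 ^ E (j + 1) * (2 ^ q j) ^ k) ∧
        (∃ b, NBx c (G (ptr F J ω)) q a (F.t ω) (j + 1) b ∧ M ω ≤ 2 ^ L * ((Kd + 1) *
          |eval b (cof (some (c j)) (1 / 2 ^ q j) (G (ptr F J ω) j)
            (Dx (ptr F J ω)) k)|)) := by
      intro ω hω
      have h1 := (hBω ω hω).2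
      rw [hP] at h1
      rw [if_pos hk'] at h1
      exact h1
    have hstep : ∀ ω, B ω → _ := fun ω hω => hcof (h := h) (h' := E (j + 1)) (hL.at (hBA ω hω))
      (hR.degx (ptr F J ω)) (hR.degl (slam F w ω)) (hR.M0 ω (hBA ω hω))
      (hR.up ω (hBA ω hω)) (hR.two ω (hBA ω hω)) (hPk ω hω).1 ((hθE 0).trans (hθh 0))
      (by rw [hpE j (Nat.lt_succ_self j)])
    refine hind (e := e) (e' := e') (E := E) (A := B) (G := G) (H := H) (p := p)
      (Dx := fun y => cof (some (c j)) (1 / 2 ^ q j) (G y j) (Dx y) k)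
      (Dl := fun s => cof (some (c j)) (1 / 2 ^ q j) (H s j) (Dl s) k)
      (M := fun ω => 2 ^ κc * M ω) hBpos hwa (hLV.sub hBA)
      ⟨fun y => ?_, fun s => ?_, fun y => ?_, fun s => ?_, fun ω hω => ?_, fun ω hω => ?_,
        fun ω hω b hb => ?_, fun ω hω b hb => ?_, fun ω hω => ?_⟩
      (hT'.sub (fun _ h => h) (by push_cast; linarith only : Pe F.p B ≤ (1 : ℕ) * Pe F.p B)
        (by omega)) hE0
      (fun l hl => hpE l (by omega)) (fun l hl => ?_) (fun l hl => ?_) (fun l hl => ?_) ?_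
      (fun l hl l' hl' => ?_) fun l hl μ hμ1 hμ2 B' hB' hP' hch => ?_
    · exact cof_deg _ _ (hR.degx y) (le_max_right _ _) ((hL.degG y j).trans (le_max_left _ _)) k
    · exact cof_deg _ _ (hR.degl s) (le_max_right _ _) ((hL.degH s j).trans (le_max_left _ _)) k
    · exact cof_dep _ (hL.depG y j) (hR.depx y) k
    · exact cof_dep _ (hL.depH s j) (hR.depl s) k
    · have := hR.M0 ω (hBA ω hω)
      positivity
    · exact (hstep ω hω).2.2 k
    · exact (hstep ω hω).2.1 k b hb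
    · exact (hstep ω hω).1 k b hb
    · obtain ⟨b, hb, hbl⟩ := (hPk ω hω).2
      refine ⟨b, ⟨hb.1, fun l hl => hb.2 l (by omega)⟩, ?_⟩
      have h1 : 0 ≤ |eval b (cof (some (c j)) (1 / 2 ^ q j) (G (ptr F J ω) j)
            (Dx (ptr F J ω)) k)| := abs_nonneg _
      calc 2 ^ κc * M ω ≤ 2 ^ κc * (2 ^ L * ((Kd + 1) * |eval b (cof (some (c j)) (1 / 2 ^ q j)
            (G (ptr F J ω) j) (Dx (ptr F J ω)) k)|)) :=
            mul_le_mul_of_nonneg_left hbl (by positivity)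
        _ ≤ 2 ^ κc * (2 ^ L * (2 ^ κd * |eval b (cof (some (c j)) (1 / 2 ^ q j)
            (G (ptr F J ω) j) (Dx (ptr F J ω)) k)|)) := by
            refine mul_le_mul_of_nonneg_left (mul_le_mul_of_nonneg_left ?_ (by positivity))
              (by positivity)
            exact mul_le_mul_of_nonneg_right hκd.le h1
        _ = _ := by ring
    · exact (Nat.mul_le_mul_right _ (by omega)).trans (hEt l (by omega))
    · have h1 := hE l (by omega)
      rw [Pool.CHT.dgp_succ K (show l + 1 ≤ j by omega)] at h1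
      have h2 : max (K j) 1 * Kd * Pool.CHT.dgp K l j =
          Kd * (Pool.CHT.dgp K l j * max (K j) 1) := by ring
      rw [h2]
      exact h1
    · have h1 := hJ l (by omega)
      have h2 := hθE 0
      have h3 := hθh 0
      omega
    · have h2 := hθE 0
      have h3 := hθh 0
      omega
    · have h1 := hsl l (by omega) l' hl'
      have h2 := hθE 0
      have h3 := hθh 0
      omega
    · have h2 := hθE 0
      have h3 := hθh 0
      exact hno l (by omega) μ hμ1 (by omega) B' (fun ω hω => hBA ω (hB' ω hω))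
        (hNsub (N' := Ni) (by omega) B' hB' hP') (hch.cls fun _ _ => by omega)
  · -- the new label
    obtain ⟨k₀, hk₀⟩ : ∃ k₀, k₀ = k - (Kd + 1) := ⟨_, rfl⟩
    have hk0K : k₀ ≤ Kd := by omega
    have hPk : ∀ ω, B ω → |eval (bt F ω) ((pderiv (some (c j)))^[k₀] (Dx (ptr F J ω)))| ≤
          M ω / 2 ^ θ k₀ * (2 ^ q j) ^ k₀ ∧
        M ω / 2 ^ θ (k₀ + 1) * (2 ^ q j) ^ (k₀ + 1) ≤
          |eval (bt F ω) ((pderiv (some (c j)))^[k₀ + 1] (Dx (ptr F J ω)))| := by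
      intro ω hω
      have h1 := (hBω ω hω).2
      rw [hP] at h1
      rw [if_neg (by omega), ← hk₀] at h1
      exact h1
    obtain ⟨μ, hμ⟩ : ∃ μ, μ = θ (k₀ + 1) := ⟨_, rfl⟩
    have hν : θ k₀ = Λ * μ := by rw [hμ]; exact hθs k₀ hk0K
    have hμE : E (j + 1) ≤ μ := by rw [hμ]; exact hθE _
    have hμh : μ ≤ h := by rw [hμ]; exact hθh _
    have hνh : Λ * μ ≤ h := by rw [← hν]; exact hθh _
    have h4μ : 4 * μ ≤ Λ * μ := Nat.mul_le_mul_right μ (by omega)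
    have hVμ : Λ * μ = V * μ + 4 * μ := by rw [hΛ]; ring
    obtain ⟨s, hs⟩ : ∃ s : ℝ, s = 1 / 2 ^ q j := ⟨_, rfl⟩
    have hs0 : 0 < s := by rw [hs]; positivity
    have hsq : s * 2 ^ q j = 1 := by rw [hs]; field_simp
    have hsk : s ^ k₀ * (2 ^ q j) ^ k₀ = 1 := by rw [← mul_pow, hsq, one_pow]
    have h2κ : (0 : ℝ) < 2 ^ κ₁ := by positivity
    have h2κ1 : (1 : ℝ) ≤ 2 ^ κ₁ := one_le_pow₀ (by norm_num)
    obtain ⟨Rx, hRx⟩ : ∃ Rx : PtT F → MvPolynomial (Option (Fin m)) ℝ, Rx = fun y =>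
        C (s ^ k₀) * (pderiv (some (c j)))^[k₀] (Dx y) := ⟨_, rfl⟩
    obtain ⟨Rl, hRl⟩ : ∃ Rl : LnT F → MvPolynomial (Option (Fin m)) ℝ, Rl = fun y =>
        C (s ^ k₀) * (pderiv (some (c j)))^[k₀] (Dl y) := ⟨_, rfl⟩
    have hdeg : ∀ Q : MvPolynomial (Option (Fin m)) ℝ, Q.totalDegree ≤ Kd →
        (C (s ^ k₀) * (pderiv (some (c j)))^[k₀] Q).totalDegree ≤ Kd := by
      intro Q hQ
      refine (totalDegree_mul _ _).trans ?_
      rw [totalDegree_C, zero_add]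
      exact iter_deg _ hQ k₀
    have hdep : ∀ Q : MvPolynomial (Option (Fin m)) ℝ, DepC c (j + 1) Q →
        DepC c (j + 1) (C (s ^ k₀) * (pderiv (some (c j)))^[k₀] Q) := fun Q hQ =>
      dep_mul (dep_C _) (iter_dep j hQ k₀)
    have hRω : ∀ ω, B ω → NwR c j (G (ptr F J ω)) q a Kd (bt F ω) (2 ^ κ₁ * M ω)
        (μ + κ₁) (Λ * μ) (Rx (ptr F J ω)) (Rl (slam F w ω)) := by
      intro ω hω
      have hAω := hBA ω hω
      have hM := hR.M0 ω hAω
      have htop' : ∀ (Q : MvPolynomial (Option (Fin m)) ℝ) (M' : ℝ), Q.totalDegree ≤ Kd →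
          0 ≤ M' →
          (∀ b, NBx c (G (ptr F J ω)) q a (F.t ω) (j + 1) b → |eval b Q| ≤ M') →
          ∀ b, NBx c (G (ptr F J ω)) q a (F.t ω) (j + 1) b →
            |s ^ k₀ * eval b ((pderiv (some (c j)))^[k₀] Q)| ≤ 2 ^ κ₁ * M' := by
        intro Q M' hQ hM' hb' b hb
        rw [abs_mul, abs_of_pos (pow_pos hs0 k₀)]
        calc s ^ k₀ * |eval b ((pderiv (some (c j)))^[k₀] Q)| ≤
              s ^ k₀ * (C₁ * M' * (2 ^ q j) ^ k₀) := mul_le_mul_of_nonneg_left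
                (htop hL.inj (hL.depG _) hQ hb' b hb k₀) (by positivity)
          _ = C₁ * M' * (s ^ k₀ * (2 ^ q j) ^ k₀) := by ring
          _ = C₁ * M' := by rw [hsk, mul_one]
          _ ≤ 2 ^ κ₁ * M' := mul_le_mul_of_nonneg_right hκ₁.le hM'
      refine ⟨?_, ?_, ?_, ?_, by positivity, fun b hb => ?_, fun b hb => ?_, ?_, ?_⟩
      · rw [hRx]
        exact hdeg _ (hR.degx _)
      · rw [hRl]
        exact hdeg _ (hR.degl _)
      · rw [hRx]
        exact hdep _ (hR.depx _)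
      · rw [hRl]
        exact hdep _ (hR.depl _)
      · rw [hRx, map_mul, eval_C]
        exact htop' _ (M ω) (hR.degx _) hM.le (hR.up ω hAω) b hb
      · have h1 := htop' (Dx (ptr F J ω) - Dl (slam F w ω)) (M ω / 2 ^ h)
          ((totalDegree_sub _ _).trans (max_le (hR.degx _) (hR.degl _))) (by positivity)
          (fun b hb => by rw [map_sub]; exact hR.two ω hAω b hb) b hb
        have hit : (pderiv (some (c j)))^[k₀] (Dx (ptr F J ω) - Dl (slam F w ω)) =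
            (pderiv (some (c j)))^[k₀] (Dx (ptr F J ω)) -
              (pderiv (some (c j)))^[k₀] (Dl (slam F w ω)) :=
          iterate_map_sub (pderiv (some (c j))) k₀ _ _
        rw [hit, map_sub] at h1
        rw [hRx, hRl, map_mul, map_mul, eval_C, ← mul_sub]
        refine h1.trans ?_
        rw [mul_div_assoc]
        refine mul_le_mul_of_nonneg_left ?_ h2κ.le
        exact div_le_div_of_nonneg_left hM.le (by positivity)
          (pow_le_pow_right₀ (by norm_num) hνh)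
      · rw [hRx, map_mul, eval_C, abs_mul, abs_of_pos (pow_pos hs0 k₀)]
        calc s ^ k₀ * |eval (bt F ω) ((pderiv (some (c j)))^[k₀] (Dx (ptr F J ω)))| ≤
              s ^ k₀ * (M ω / 2 ^ θ k₀ * (2 ^ q j) ^ k₀) :=
              mul_le_mul_of_nonneg_left (hPk ω hω).1 (by positivity)
          _ = M ω / 2 ^ θ k₀ * (s ^ k₀ * (2 ^ q j) ^ k₀) := by ring
          _ = M ω / 2 ^ (Λ * μ) := by rw [hsk, mul_one, hν]
          _ ≤ 2 ^ κ₁ * M ω / 2 ^ (Λ * μ) := by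
              refine div_le_div_of_nonneg_right ?_ (by positivity)
              exact le_mul_of_one_le_left hM.le h2κ1
      · have e1 : pderiv (some (c j)) (Rx (ptr F J ω)) =
            C (s ^ k₀) * (pderiv (some (c j)))^[k₀ + 1] (Dx (ptr F J ω)) := by
          rw [hRx]
          simp only
          rw [pderiv_C_mul, Function.iterate_succ_apply']
        rw [e1, map_mul, eval_C, abs_mul, abs_of_pos (pow_pos hs0 k₀)]
        have h1 := mul_le_mul_of_nonneg_left (hPk ω hω).2 (pow_pos hs0 k₀).le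
        refine le_trans (le_of_eq ?_) h1
        rw [← hμ, pow_succ, pow_add (2 : ℝ) μ κ₁]
        have e2 : s ^ k₀ * (M ω / 2 ^ μ * ((2 ^ q j) ^ k₀ * 2 ^ q j)) =
            M ω / 2 ^ μ * (s ^ k₀ * (2 ^ q j) ^ k₀) * 2 ^ q j := by ring
        rw [e2, hsk, mul_one]
        field_simp
    have hκμ : κ ≤ μ := hκE.trans hμE
    obtain ⟨B', hB', hP', hch⟩ := hnew (e := eN) (e' := eN') (e₀ := e₀) (o := 4 * μ)
      (μ := μ + κ₁) (ν := Λ * μ) (q := q) (p := p) (A := B) (G := G) (H := H) (Rx := Rx)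
      (Rl := Rl) (M := fun ω => 2 ^ κ₁ * M ω)
      (g' := fun l' => if l' < j then q l' + 4 * μ else p j + V * μ) hBpos hwa (hL.sub hBA)
      (fun y => by rw [hRx]; exact hdeg _ (hR.degx y))
      (fun s => by rw [hRl]; exact hdeg _ (hR.degl s))
      (fun y => by rw [hRx]; exact hdep _ (hR.depx y))
      (fun s => by rw [hRl]; exact hdep _ (hR.depl s)) hRω
      (hT'.sub (fun _ h => h) (by push_cast; linarith only : Pe F.p B ≤ (1 : ℕ) * Pe F.p B)
        (by omega))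
      (fun l hl => by
        rw [hpE l (by omega)]
        have h1 := hEκ l hl
        have h2 : κn * (e₀ + 1) ≤ κ * (e₀ + 1) := Nat.mul_le_mul_right _ (by omega)
        omega)
      (by
        have h1 := hEκ j le_rfl
        have h2 : κn * (e₀ + 1) ≤ κ * (e₀ + 1) := Nat.mul_le_mul_right _ (by omega)
        omega) (by omega) (by omega)
      (by
        calc Λ * μ ≤ Λ * (μ + κ₁) := Nat.mul_le_mul_left _ (Nat.le_add_right _ _)
          _ = Λ * (μ + κ₁) := rfl)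
      (fun l hl => by
        have h1 := hJN l hl
        omega) (by omega) (fun l hl => by
        show (if l < j then q l + 4 * μ else p j + V * μ) = q l + 4 * μ
        rw [if_pos hl]) (by
        show (if j < j then q j + 4 * μ else p j + V * μ) + (μ + κ₁) + κn ≤ q j + Λ * μ
        rw [if_neg (lt_irrefl j), hpE j (Nat.lt_succ_self j), hVμ]
        omega) (fun l hl => by
        have h1 := hslN l hl
        omega)
    refine hnoN μ hμE hμh B' (fun ω hω => hBA ω (hB' ω hω))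
      (hNsub (N' := 2) (by omega) B' hB' (by push_cast; exact hP')) (hch.cls fun _ _ => ?_)
    omega

/-- **No relations at the target level** over two chains of two-sided labels: the coordinates
`c l`, `l < r`, have exponent `e`, the target `c r` has an exponent `eN` of its own; the chains
have the same labels. -/
theorem relvN_fam (V D r : ℕ) (K : ℕ → ℕ) : ∃ κ N Kn : ℕ, 1 ≤ κ ∧ ∀ {m J : ℕ} {F : Fam m J}
    {c : ℕ → Fin m} {a w e eN e₁ e₁N e' e'N e₀ y N₀ : ℕ} {g q E : ℕ → ℕ} {A : F.Ω → Prop}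
    {G : PtT F → ℕ → MvPolynomial (Option (Fin m)) ℝ}
    {H : LnT F → ℕ → MvPolynomial (Option (Fin m)) ℝ}
    {Dx : PtT F → MvPolynomial (Option (Fin m)) ℝ}
    {Dl : LnT F → MvPolynomial (Option (Fin m)) ℝ},
    0 < Pe F.p A → w ≤ a → Set.InjOn c (Set.Iio (r + 1)) → ChOK F c r K a w e g A G H →
    ChOK F c (r + 1) K a w eN g A G H →
    (∀ y, (Dx y).totalDegree ≤ D) → (∀ s, (Dl s).totalDegree ≤ D) →
    (∀ y, DepC c (r + 1) (Dx y)) → (∀ s, DepC c (r + 1) (Dl s)) →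
    (∀ ω, A ω → |eval (bt F ω) (Dx (ptr F J ω))| ≤ 1 / 2 ^ N₀) →
    (∀ ω, A ω → ∀ b, NBx c (G (ptr F J ω)) g a (F.t ω) (r + 1) b →
      |eval b (Dx (ptr F J ω)) - eval b (Dl (slam F w ω))| ≤ 1 / 2 ^ N₀) →
    (∀ ω, A ω → ∃ b, NBx c (G (ptr F J ω)) g a (F.t ω) (r + 1) b ∧
      2 ^ y / 2 ^ N₀ ≤ |eval b (Dx (ptr F J ω))|) →
    TmN F N e₀ A → e₀ + 1 ≤ E 0 → (∀ l ≤ r + 1, κ * E 0 ≤ E (l + 1)) →
    (∀ l < r + 1, (V + 4) ^ (D * dgp K l (r + 1) + 1) * E (l + 1) ≤ E (l + 2)) →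
    (∀ l < r + 1, q l ≤ g l) → (∀ l < r + 1, q l + E (l + 1) + κ + gls K g q l ≤ g l) →
    (E (r + 2) + κ + ∑ j ∈ range (r + 1), (g j - q j) * (D * dgp K j (r + 1)) ≤ y) →
    (∀ l < r, ∀ l' < l, e + nlp g l' l + κ + gls K g q l ≤ e₁) →
    (∀ l < r + 1, ∀ l' < l, eN + nlp g l' l + κ + gls K g q l ≤ e₁N) →
    (∀ l < r, ∀ l' ≤ l, q l' + e₁ + E (r + 2) ≤ q l + e') →
    (∀ l' ≤ r, q l' + e₁N + E (r + 2) ≤ q r + e'N) →
    (∀ l < r, q l + e₁ + 7 * E (r + 2) ≤ J) → (∀ l ≤ r, q l + e₁N + 7 * E (r + 2) ≤ J) →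
    w + 4 * E (r + 2) ≤ J →
    (∀ l < r, ∀ μ, E (l + 1) ≤ μ → μ ≤ E (r + 2) → ∀ B : F.Ω → Prop, Sub B A →
      Pe F.p A ≤ N * Pe F.p B → ¬ ChN F c (l + 1) (fun _ => Kn) (a + 4 * μ) (w + 4 * μ) e'
        (fun l' => if l' < l then q l' + 4 * μ else q l + E (l + 1) + V * μ) B) →
    (∀ μ, E (r + 1) ≤ μ → μ ≤ E (r + 2) → ∀ B : F.Ω → Prop, Sub B A →
      Pe F.p A ≤ N * Pe F.p B → ¬ ChN F c (r + 1) (fun _ => Kn) (a + 4 * μ) (w + 4 * μ) e'N
        (fun l' => if l' < r then q l' + 4 * μ else q r + E (r + 1) + V * μ) B) → False := by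
  classical
  obtain ⟨κ₁, N, Kn, hκ₁, hcore⟩ := rel_top V K r D 0
  obtain ⟨κ₂, hcbx⟩ := cbx_of r K
  obtain ⟨κ₄, hcbxN⟩ := cbx_of (r + 1) K
  obtain ⟨Dg, hDg⟩ : ∃ Dg, Dg = ∑ j ∈ range (r + 1), D * dgp K j (r + 1) := ⟨_, rfl⟩
  obtain ⟨C₃, hC₃, hgrow⟩ := nbx_grow Dg (r + 1)
  obtain ⟨κ₃, hκ₃⟩ := pow_unbounded_of_one_lt C₃ (one_lt_two (α := ℝ))
  refine ⟨κ₁ + κ₂ + κ₃ + κ₄, N, Kn, by omega, ?_⟩
  intro m J F c a w e eN e₁ e₁N e' e'N e₀ y N₀ g q E A G H Dx Dl hA hwa hc hchV hch hdx hdl hpx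
    hpl hown htwo hlow hT hE0 hEt hE hq hp hy he1 he1N he' he'N hJ hJN hwJ hno hnoN
  have hsum : ∀ j < r + 1, D * dgp K j (r + 1) ≤ Dg := fun j hj => by
    rw [hDg]
    exact Finset.single_le_sum (f := fun j => D * dgp K j (r + 1)) (fun _ _ => Nat.zero_le _)
      (mem_range.2 hj)
  -- the maxima
  have hmax : ∀ ω, ∃ b, NBx c (G (ptr F J ω)) q a (F.t ω) (r + 1) b ∧
      ∀ b', NBx c (G (ptr F J ω)) q a (F.t ω) (r + 1) b' →
        |eval b' (Dx (ptr F J ω))| ≤ |eval b (Dx (ptr F J ω))| := fun ω =>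
    nmax hc (hch.depG _) (hpx _)
  choose bm hbm hbm' using hmax
  obtain ⟨M, hM⟩ : ∃ M : F.Ω → ℝ, M = fun ω => |eval (bm ω) (Dx (ptr F J ω))| := ⟨_, rfl⟩
  have hMlow : ∀ ω, A ω → 2 ^ y / 2 ^ N₀ ≤ M ω := by
    intro ω hω
    obtain ⟨b, hb, hbl⟩ := hlow ω hω
    rw [hM]
    refine hbl.trans (hbm' ω b ⟨hb.1, fun l hl => (hb.2 l hl).trans (p2le (hq l hl))⟩)
  have hbase : ∀ ω, A ω → 2 ^ (κ₃ + ∑ j ∈ range (r + 1), (g j - q j) * (D * dgp K j (r + 1))) *
      (1 / 2 ^ N₀) ≤ M ω / 2 ^ E (r + 2) := by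
    intro ω hω
    rw [le_div_iff₀ (by positivity)]
    refine le_trans ?_ (hMlow ω hω)
    rw [mul_one_div, div_mul_eq_mul_div, ← pow_add]
    refine div_le_div_of_nonneg_right (pow_le_pow_right₀ (by norm_num) ?_) (by positivity)
    omega
  refine hcore (e := e₁) (e' := e') (eN := e₁N) (eN' := e'N) (q := q)
    (p := fun l => q l + E (l + 1)) (E := E) (Dx := Dx) (Dl := Dl) (M := M) hA hwa
    (hcbx (hc.mono fun x hx => lt_trans hx (Nat.lt_succ_self r)) hchV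
      (fun l hl => hq l (by omega)) (fun l hl => ?_) fun l hl l' hl' => ?_)
    (hcbxN hc hch hq (fun l hl => ?_) fun l hl l' hl' => ?_)
    ⟨hdx, hdl, hpx, hpl, fun ω hω => ?_, fun ω hω => ?_, fun ω hω b hb => ?_,
      fun ω hω b hb => ?_, fun ω hω => ?_⟩ hT hE0 (fun l _ => rfl)
    (fun l hl => (Nat.mul_le_mul_right _ (by omega)).trans (hEt l hl)) hE hJ hJN hwJ he' he'N
    hno hnoN
  · have := hp l (by omega)
    show q l + E (l + 1) + κ₂ + gls K g q l ≤ g l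
    omega
  · have := he1 l hl l' hl'
    omega
  · have := hp l hl
    show q l + E (l + 1) + κ₄ + gls K g q l ≤ g l
    omega
  · have := he1N l hl l' hl'
    omega
  · exact lt_of_lt_of_le (by positivity) (hMlow ω hω)
  · refine (hown ω hω).trans (le_trans ?_ (hbase ω hω))
    exact le_mul_of_one_le_left (by positivity) (one_le_pow₀ (by norm_num))
  · have h1 := hgrow (K := K) (G := G (ptr F J ω)) (Q := Dx (ptr F J ω) - Dl (slam F w ω))
      (g := g) (g' := q) (a := a) (D₀ := D) (t := F.t ω) (M := 1 / 2 ^ N₀) le_rfl hc (hch.degG _)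
      (hch.depG _) (dep_sub (hpx _) (hpl _))
      ((totalDegree_sub _ _).trans (max_le (hdx _) (hdl _))) hsum hq
      (fun b hb => by rw [map_sub]; exact htwo ω hω b hb) b hb
    rw [map_sub] at h1
    refine h1.trans (le_trans ?_ (hbase ω hω))
    refine mul_le_mul_of_nonneg_right ?_ (by positivity)
    rw [pow_add]
    exact mul_le_mul_of_nonneg_right hκ₃.le (by positivity)
  · rw [hM]
    exact hbm' ω b hb
  · refine ⟨bm ω, hbm ω, ?_⟩
    rw [pow_zero, one_mul, hM]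

end Pool.RLV
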